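import Pool.Agent.H97.S6.H2R
import Pool.Agent.H59.OC.OCB

/-!
# Falling: one family

Contexts with a constant precision `H` of the slope `s`, the same slope `s` for all windows. The
windows are `w₀ + i Δ`, the precision of the normal form there is `V₀ + i r + H`; the rows are
`P₀ + k (Δ + r)`, so the base velocity at `(i, k)` is `q₀ + (k + (N - i)) (Δ + r)`: it is constant
on the diagonals.
-/

set_option autoImplicit false

namespace Pool.FALL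

open Finset Real
open Pool.Agent.H49.Ent Pool.Agent.H32.Dense Pool.STK Pool.KA Pool.KSAT Pool.K2S Pool.S6N

/-- The window. -/
def fw (w₀ Δ i : ℕ) : ℕ := w₀ + i * Δ

/-- The precision of the direction. -/
def fv (V₀ r i : ℕ) : ℕ := V₀ + i * r

/-- The base velocity. -/
def fq (q₀ Δ r N i k : ℕ) : ℕ := q₀ + (k + (N - i)) * (Δ + r)

/-- **The data for falling.** `a i`, `s`, `t i` is the frame of the window `i`, `a'`, `s`, `t'` the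
exact frame. -/
structure FIn {J : ℕ} (F : Fam 3 J) (A : F.Ω → Prop) (σ : Fin 3 → Fin 3)
    (N M X Δ r w₀ V₀ H q₀ : ℕ) (D e B c ca x₀ κ ϖ ε : ℝ) (a t : ℕ → F.Ω → ℝ)
    (s a' t' : F.Ω → ℝ) : Prop where
  inj : Function.Injective σ
  law : IsLaw (Pool.Agent.H49.Ent.cond F.p A True)
  XΔ : X ≤ Δ
  Xr : X ≤ r
  top : w₀ + N * Δ + X ≤ J
  D0 : 0 ≤ D
  D4 : D ≤ 4
  /-- the frames -/
  frg : ∀ i ≤ N, Frg F A (fw w₀ Δ i) (fv V₀ r i) H D (a i) s (t i) a' s t'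
  /-- the time is full given the line -/
  time : (J : ℝ) * Real.log 2 - e ≤
    CH (Pool.Agent.H49.Ent.cond F.p A True) F.T (fun ω => (F.l ω, F.Z ω))
  /-- the exact frame has few digits given the first context of a window -/
  dig : ∀ i ≤ N, CH (Pool.Agent.H49.Ent.cond F.p A True) (fun ω => (a' ω, s ω, t' ω))
    (fun ω => (ctx F σ (fw w₀ Δ i) (fq q₀ Δ r N i 0) (fv V₀ r i) H (a i) s (t i) ω, F.T ω)) ≤ B
  /-- the position along the fans is full given the context and the time -/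
  wfe : ∀ i ≤ N, ∀ k < M, X * Real.log 2 - e ≤ CH (Pool.Agent.H49.Ent.cond F.p A True)
    (fun ω => ⌊(2 : ℝ) ^ (fq q₀ Δ r N i k + fw w₀ Δ i + X) * F.x ω (σ 0)⌋)
    (fun ω => (ctx F σ (fw w₀ Δ i) (fq q₀ Δ r N i k) (fv V₀ r i) H (a i) s (t i) ω, F.T ω))
  /-- the velocity is active -/
  act : ∀ i ≤ N, ∀ k < M, ca * X * Real.log 2 ≤ CH (Pool.Agent.H49.Ent.cond F.p A True)
    (Uni.dg X (om F σ (fq q₀ Δ r N i k) (fv V₀ r i) H X (a i) s (t i) 0))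
    (ctx F σ (fw w₀ Δ i) (fq q₀ Δ r N i k) (fv V₀ r i) H (a i) s (t i))
  /-- the rows of the normal position are not full on large events -/
  row : ∀ i ≤ N, ∀ k < M, ∀ j : ℕ, (j + 1) * ⌊κ * X⌋₊ ≤ X → ∀ E : F.Ω → Prop,
    ϖ ≤ Pe (Pool.Agent.H49.Ent.cond F.p A True) E →
    CH (Pool.Agent.H49.Ent.cond (Pool.Agent.H49.Ent.cond F.p A True) E True)
      (Uni.dg ((j + 1) * ⌊κ * X⌋₊) (nn F σ (fw w₀ Δ i) (fq q₀ Δ r N i k) (fv V₀ r i) H X (a i) s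
        (t i) s t'))
      (fun ω => (Uni.dg (j * ⌊κ * X⌋₊) (nn F σ (fw w₀ Δ i) (fq q₀ Δ r N i k) (fv V₀ r i) H X
        (a i) s (t i) s t') ω,
        (ctx F σ (fw w₀ Δ i) (fq q₀ Δ r N i k) (fv V₀ r i) H (a i) s (t i) ω,
          gt F a' s t' ω))) ≤
      (1 - c) * ⌊κ * X⌋₊ * Real.log 2
  /-- there are no thinner planks: the exact slope is not constant -/
  tur : ∀ i ≤ N, ∀ k < M, Pool.KAF.Pr (dbl (Pool.Agent.H49.Ent.cond F.p A True)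
    (fun ω => (blk F σ (fw w₀ Δ i) (fq q₀ Δ r N i k) (fv V₀ r i) H X (a i) s (t i) ω,
      ctx F σ (fw w₀ Δ i) (fq q₀ Δ r N i k) (fv V₀ r i) H (a i) s (t i) ω)))
    {v | |SS (fv V₀ r i) H (a i) s (t i) s t' 0 v.1 - SS (fv V₀ r i) H (a i) s (t i) s t' 0 v.2| <
      (2 : ℝ) ^ (-(x₀ * X))} ≤ ε

/-- **(FALL)** one family. -/
def FallOneStmt : Prop :=
  ∀ c ca : ℝ, 0 < c → 0 < ca → ∃ (x₀ κ ϖ ι ε : ℝ) (N : ℕ), 0 < x₀ ∧ 0 < κ ∧ κ ≤ 1 ∧ 0 < ϖ ∧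
    0 < ι ∧ 0 < ε ∧ ∀ β : ℝ, ∃ M X₀ : ℕ, ∀ (J : ℕ) (F : Fam 3 J) (A : F.Ω → Prop)
      (σ : Fin 3 → Fin 3) (X Δ r w₀ V₀ H q₀ : ℕ) (D e B : ℝ) (a t : ℕ → F.Ω → ℝ)
      (s a' t' : F.Ω → ℝ), X₀ ≤ X → e ≤ ι * X → B ≤ β * X →
      FIn F A σ N M X Δ r w₀ V₀ H q₀ D e B c ca x₀ κ ϖ ε a t s a' t' → False

end Pool.FALL
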