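import Pool.Agent.H21.FALL.Wfe
import Pool.Agent.H90.S6R.ActL

/-!
# Falling: the velocities are active in all contexts
-/

set_option autoImplicit false

namespace Pool.FALL

open Finset Real
open Pool.Agent.H49.Ent Pool.Agent.H32.Dense Pool.STK Pool.KA Pool.KA.Box Pool.KSAT Pool.K2S
  Pool.PB Pool.S6N Pool.S6C Pool.Sel51

/-- Activity in a visible context, from the activity at exact points. -/
theorem VF.act {J : ℕ} {F : Fam 3 J} {A : F.Ω → Prop} {σ : Fin 3 → Fin 3} {w q V H X : ℕ}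
    {a s t a' s' t' : F.Ω → ℝ} {D B : ℝ} (h : VF F A σ w q V H a s t a' s' t' D B)
    (hD : 1 ≤ D) (hB : 1 ≤ B) (hQ : IsLaw (Pool.Agent.H49.Ent.cond F.p A True)) :
    CH (Pool.Agent.H49.Ent.cond F.p A True) (fun ω => F.D (q + X) ω (σ 0))
      (fun ω => (F.D q ω (σ 0), Fam.pt F ω)) ≤
    CH (Pool.Agent.H49.Ent.cond F.p A True) (Uni.dg X (om F σ q V H X a s t 0))
      (ctx F σ w q V H a s t) + vC D B := by
  have h1 := h4f2 (F := F) (σ := σ) (q := q) (X := X) h.frg h.wJ hD hQ hB h.bd h.hP h.fp h.hu h.hN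
  have h2 : CH (Pool.Agent.H49.Ent.cond F.p A True) (Uni.dg X (om F σ q V H X a s t 0))
      (fun ω => (ctx F σ w q V H a s t ω, gt F a' s' t' ω)) ≤
      CH (Pool.Agent.H49.Ent.cond F.p A True) (Uni.dg X (om F σ q V H X a s t 0))
      (ctx F σ w q V H a s t) :=
    CH_mono_cond hQ.nonneg fun ω ω' _ _ e => (Prod.ext_iff.mp e).1
  have h3 : CH (Pool.Agent.H49.Ent.cond F.p A True) (fun ω => F.D (q + X) ω (σ 0))
      (fun ω => (F.D q ω (σ 0), Fam.pt F ω)) =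
      CH (Pool.Agent.H49.Ent.cond F.p A True) (fun ω => ⌊(2 : ℝ) ^ (q + X) * F.d ω (σ 0)⌋)
      (fun ω => (⌊(2 : ℝ) ^ q * F.d ω (σ 0)⌋, Fam.pt F ω)) := rfl
  rw [h3]
  unfold vC
  linarith

/-- **(ACT)** for the contexts of the falling case. -/
theorem act_fall {S : PCl 3} {a₁ R : ℝ} {i₀ : Fin 3} {act : ℚ → ℝ}
    (hSt : ∀ (τ : ℝ) (J : ℕ) (F : Fam 3 J) (A : F.Ω → Prop), S.St τ J F A → Fam.Stt F a₁ R τ A)
    (hact : ActN S i₀ act) {x a₀ α : ℝ} (hx : 0 < x) (hx1 : x < 1) (hα : 0 < α)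
    (hs : Slp act x a₀ α) {κ : ℝ} (hκ : 0 < κ) : ∃ δ₀ : ℝ, 0 < δ₀ ∧ ∀ δ : ℝ, 0 < δ → δ ≤ δ₀ →
    Clp S (fun J F A => ∀ (N w₀ Δ r V₀ H X Va Rt Pu PN : ℕ) (sg : Fin 3 → Fin 3)
      (a t : ℕ → F.Ω → ℝ) (s a' t' al nu kk bb : F.Ω → ℝ), sg 0 = i₀ →
      FFr F A sg N w₀ Δ r V₀ H X Va Rt Pu PN a t s a' t' al nu kk bb → ∀ i ≤ N, ∀ q : ℕ,
      |(q : ℝ) - x * J| ≤ δ * J → |((q + X : ℕ) : ℝ) - x * J| ≤ δ * J → κ * δ * J ≤ X →
      q + fv V₀ r N ≤ Pu → q + (fv V₀ r N + H) ≤ PN → q + (fv V₀ r N + H) + fw w₀ Δ N ≤ J →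
      α / 2 * X * Real.log 2 ≤ CH (Pool.Agent.H49.Ent.cond F.p A True)
        (Uni.dg X (om F sg q (fv V₀ r i) H X (a i) s (t i) 0))
        (ctx F sg (fw w₀ Δ i) q (fv V₀ r i) H (a i) s (t i))) := by
  obtain ⟨δ₀, hδ₀, h1⟩ := act_loc hact hx hx1 hα.le hs hκ (η := α / 4) (by positivity)
  refine ⟨δ₀, hδ₀, fun δ hδ hδδ => ?_⟩
  have h2 := h1 δ hδ hδδ 1 one_pos
  have P : Clp S (fun J F A => 0 < Pe F.p A) := Clp.of one_pos 0 (fun J _ F A hS => by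
    obtain ⟨c1, c2, c3, c4⟩ := hSt 1 J F A hS
    exact lt_of_lt_of_le (Real.exp_pos _) c4)
  have hl2 : 0 < Real.log 2 := Real.log_pos (by norm_num)
  obtain ⟨J₂, hJ₂⟩ := exists_nat_ge (vC 4 10 / (α / 4 * (κ * δ) * Real.log 2))
  refine Clp.mono (J₂ := J₂) (h2.and P) ?_
  rintro J hJ F A ⟨hk, hpA⟩ N w₀ Δ r V₀ H X Va Rt Pu PN sg a t s a' t' al nu kk bb h0 hF i hi q g1 g2 g3
    g4 g5 g6
  have hl := isLaw_cond F.isLaw hpA
  have k1 := (hk A (fun _ h => h) (by linarith) q X g1 g2 g3).1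
  have k2 := (vf_ffr hF hi g4 g5 g6).act (X := X) (by norm_num) (by norm_num) hl
  rw [h0] at k2
  have hJr : (J₂ : ℝ) ≤ J := by exact_mod_cast hJ
  have k3 := hJ₂.trans hJr
  rw [div_le_iff₀ (by positivity)] at k3
  have k4 : α / 4 * (κ * δ * J) * Real.log 2 ≤ α / 4 * X * Real.log 2 :=
    mul_le_mul_of_nonneg_right (mul_le_mul_of_nonneg_left g3 (by positivity)) hl2.le
  have k5 : (α - α / 4) * X * Real.log 2 = α / 2 * X * Real.log 2 + α / 4 * X * Real.log 2 := by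
    ring
  rw [k5] at k1
  linarith

end Pool.FALL
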