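import Pool.Agent.H21.FALL.Step

/-!
# Falling: one family, the choice of the context
-/

set_option autoImplicit false

namespace Pool.FALL

open Finset Real
open Pool.Agent.H49.Ent Pool.Agent.H32.Dense Pool.STK Pool.KA Pool.KA.Box Pool.KSAT Pool.K2S
  Pool.S6N

/-! ### The grid -/

/-- A grid with `N` columns and many rows: the sums over the rows of a column, over the columns of
a row, and over the diagonals are small. -/
theorem grid_rect {f₁ f₂ f₃ : ℕ → ℕ → ℝ} (h₁ : ∀ i k, 0 ≤ f₁ i k) (h₂ : ∀ i k, 0 ≤ f₂ i k)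
    {N M : ℕ} (hN : 0 < N) (hNM : N ≤ M) {S₁ S₂ S₃ : ℝ}
    (hR : ∀ i < N, ∑ k ∈ range (N + M), f₁ i k ≤ S₁)
    (hC : ∀ k < N + M, ∑ i ∈ range N, f₂ i k ≤ S₂)
    (hD : ∀ d < M, ∑ i ∈ range N, f₃ i (i + d) ≤ S₃) (hS₂ : 0 ≤ S₂) :
    ∃ i < N, ∃ d < M, f₁ i (i + d) + f₂ i (i + d) + f₃ i (i + d) ≤
      S₁ / M + 2 * S₂ / N + S₃ / N := by
  have hN' : (0 : ℝ) < N := by exact_mod_cast hN
  have hM' : (0 : ℝ) < M := by
    have : 0 < M := by omega
    exact_mod_cast this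
  have hNM' : (N : ℝ) ≤ M := by exact_mod_cast hNM
  have shift : ∀ (f : ℕ → ℝ), (∀ k, 0 ≤ f k) → ∀ i < N,
      ∑ d ∈ range M, f (i + d) ≤ ∑ k ∈ range (N + M), f k := by
    intro f hf i hi
    have e1 : ∑ d ∈ range M, f (i + d) = ∑ k ∈ (range M).image (fun d => i + d), f k := by
      rw [Finset.sum_image]
      intro x _ y _ h
      exact Nat.add_left_cancel h
    rw [e1]
    refine Finset.sum_le_sum_of_subset_of_nonneg ?_ fun k _ _ => hf k
    intro k hk
    obtain ⟨d, hd, rfl⟩ := Finset.mem_image.1 hk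
    rw [Finset.mem_range] at hd ⊢
    omega
  by_contra hcon
  push Not at hcon
  have t1 : ∑ i ∈ range N, ∑ d ∈ range M, f₁ i (i + d) ≤ N * S₁ := by
    calc ∑ i ∈ range N, ∑ d ∈ range M, f₁ i (i + d) ≤ ∑ _i ∈ range N, S₁ :=
          Finset.sum_le_sum fun i hi =>
            (shift _ (h₁ i) i (Finset.mem_range.1 hi)).trans (hR i (Finset.mem_range.1 hi))
      _ = N * S₁ := by rw [Finset.sum_const, Finset.card_range, nsmul_eq_mul]
  have t2 : ∑ i ∈ range N, ∑ d ∈ range M, f₂ i (i + d) ≤ (N + M) * S₂ := by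
    calc ∑ i ∈ range N, ∑ d ∈ range M, f₂ i (i + d) ≤
          ∑ i ∈ range N, ∑ k ∈ range (N + M), f₂ i k :=
          Finset.sum_le_sum fun i hi => shift _ (h₂ i) i (Finset.mem_range.1 hi)
      _ = ∑ k ∈ range (N + M), ∑ i ∈ range N, f₂ i k := Finset.sum_comm
      _ ≤ ∑ _k ∈ range (N + M), S₂ := Finset.sum_le_sum fun k hk => hC k (Finset.mem_range.1 hk)
      _ = (N + M) * S₂ := by
          rw [Finset.sum_const, Finset.card_range, nsmul_eq_mul]
          push_cast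
          ring
  have t3 : ∑ i ∈ range N, ∑ d ∈ range M, f₃ i (i + d) ≤ M * S₃ := by
    rw [Finset.sum_comm]
    calc ∑ d ∈ range M, ∑ i ∈ range N, f₃ i (i + d) ≤ ∑ _d ∈ range M, S₃ :=
          Finset.sum_le_sum fun d hd => hD d (Finset.mem_range.1 hd)
      _ = M * S₃ := by rw [Finset.sum_const, Finset.card_range, nsmul_eq_mul]
  have t4 : ∑ i ∈ range N, ∑ d ∈ range M, (f₁ i (i + d) + f₂ i (i + d) + f₃ i (i + d)) ≤
      N * S₁ + (N + M) * S₂ + M * S₃ := by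
    simp only [Finset.sum_add_distrib]
    linarith
  have t5 : (N : ℝ) * (M * (S₁ / M + 2 * S₂ / N + S₃ / N)) <
      ∑ i ∈ range N, ∑ d ∈ range M, (f₁ i (i + d) + f₂ i (i + d) + f₃ i (i + d)) := by
    have e1 : (N : ℝ) * (M * (S₁ / M + 2 * S₂ / N + S₃ / N)) =
        ∑ _i ∈ range N, ∑ _d ∈ range M, (S₁ / M + 2 * S₂ / N + S₃ / N) := by
      rw [Finset.sum_const, Finset.sum_const, Finset.card_range, Finset.card_range,
        nsmul_eq_mul, nsmul_eq_mul]
    rw [e1]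
    refine Finset.sum_lt_sum_of_nonempty (Finset.nonempty_range_iff.2 hN.ne') fun i hi => ?_
    exact Finset.sum_lt_sum_of_nonempty (Finset.nonempty_range_iff.2 (by omega)) fun d hd =>
      hcon i (Finset.mem_range.1 hi) d (Finset.mem_range.1 hd)
  have t6 : (N : ℝ) * (M * (S₁ / M + 2 * S₂ / N + S₃ / N)) = N * S₁ + 2 * M * S₂ + M * S₃ := by
    field_simp
  have t7 : ((N : ℝ) + M) * S₂ ≤ 2 * M * S₂ := mul_le_mul_of_nonneg_right (by linarith) hS₂
  linarith

variable {J : ℕ} {F : Fam 3 J} {A : F.Ω → Prop} {σ : Fin 3 → Fin 3} {w q V H X : ℕ} {D : ℝ}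
  {a s t a' s' t' : F.Ω → ℝ}

/-- Frames with a larger constant. -/
theorem frg_mono {D' : ℝ} (h : D ≤ D') (hF : Frg F A w V H D a s t a' s' t') :
    Frg F A w V H D' a s t a' s' t' := by
  have key : ∀ n : ℕ, D / (2 : ℝ) ^ n ≤ D' / 2 ^ n := fun n =>
    div_le_div_of_nonneg_right h (by positivity)
  exact ⟨hF.fn, hF.ga, hF.gs, hF.gt, fun ω hω => (hF.ca ω hω).trans (key _),
    fun ω hω => (hF.cs ω hω).trans (key _), fun ω hω => (hF.ct ω hω).trans (key _)⟩

/-- The next context of the chain with a fixed window. -/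
theorem ctx_next' {q' : ℕ} (hq : q + X ≤ q') {ω ω' : F.Ω}
    (h : ctx F σ w q' V H a s t ω = ctx F σ w q' V H a s t ω') :
    ctx F σ w q V H a s t ω = ctx F σ w q V H a s t ω' ∧
      blk F σ w q V H X a s t ω = blk F σ w q V H X a s t ω' := by
  refine ctx_next (F := F) (σ := σ) (w := w) (q := q) (X := X) ?_
  refine mlb_coarse F ?_ ?_ h
  · intro i
    fin_cases i
    · show q + X + w ≤ q' + w
      omega
    · show q + X + V + w ≤ q' + V + w
      omega
    · show q + X + (V + H) + w ≤ q' + (V + H) + w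
      omega
  · intro i
    fin_cases i
    · show q + X ≤ q'
      omega
    · show q + X + V ≤ q' + V
      omega
    · show q + X + (V + H) ≤ q' + (V + H)
      omega

/-- The velocity along the fans does not depend on the window. -/
theorem dg_om0 {w₁ V₁ V₂ H₁ H₂ : ℕ} {a₁ s₁ t₁ a₂ s₂ t₂ : F.Ω → ℝ} :
    Uni.dg X (om F σ q V₁ H₁ X a₁ s₁ t₁ 0) = Uni.dg X (om F σ q V₂ H₂ X a₂ s₂ t₂ 0) := by
  have key : ∀ (V H : ℕ) (a s t : F.Ω → ℝ) (o : F.Ω), Uni.dg X (om F σ q V H X a s t 0) o =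
      ⌊(2 : ℝ) ^ X * Int.fract ((2 : ℝ) ^ q * F.d o (σ 0))⌋ := by
    intro V H a s t o
    rw [show Uni.dg X (om F σ q V H X a s t 0) o = (blk F σ w₁ q V H X a s t o).2 0 from
      dg_om 0 o]
    change ⌊(2 : ℝ) ^ X * Int.fract ((2 : ℝ) ^ q *
      mco (tfr σ (a o) (s o) (t o)) (F.d o) 0)⌋ = _
    rw [mco_tfr0]
  funext o
  rw [key, key]

/-- Digits of a bounded number. -/
theorem CH_dg_bd {p : F.Ω → ℝ} (hp : IsLaw p) {T : Type} (x : F.Ω → ℝ) (W : F.Ω → T) {K : ℝ}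
    (hK : 1 ≤ K) (hx : ∀ ω, 0 < p ω → |x ω| ≤ K) :
    CH p (Uni.dg X x) W ≤ X * Real.log 2 + Real.log (4 * K + 1) := by
  have h2 : (1 : ℝ) ≤ 2 ^ X := one_le_pow₀ (by norm_num)
  have h1 := Sel.CH_near hp (Uni.dg X x) W (fun _ => 0) (fun _ _ _ _ _ => rfl)
    (K := 2 ^ X * (2 * K)) (by positivity) (fun ω hω => by
      rw [sub_zero]
      have f1 := Int.floor_le ((2 : ℝ) ^ X * x ω)
      have f2 := Int.lt_floor_add_one ((2 : ℝ) ^ X * x ω)
      have f3 : |(2 : ℝ) ^ X * x ω| ≤ 2 ^ X * K := by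
        rw [abs_mul, abs_of_pos (by positivity : (0 : ℝ) < 2 ^ X)]
        exact mul_le_mul_of_nonneg_left (hx ω hω) (by positivity)
      have f4 : (1 : ℝ) ≤ 2 ^ X * K := by nlinarith
      have f5 := abs_le.1 f3
      show |((⌊(2 : ℝ) ^ X * x ω⌋ : ℤ) : ℝ)| ≤ _
      rw [abs_le]
      constructor <;> linarith [f5.1, f5.2])
  refine h1.trans ?_
  rw [← Real.log_pow, ← Real.log_mul (by positivity) (by positivity)]
  refine Real.log_le_log (by positivity) ?_
  nlinarith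

theorem nn_bd (hF : Frg F A w V H 4 a s t a' s t') {ω : F.Ω} (hω : A ω) :
    |nn F σ w q V H X a s t s t' ω| ≤ 10 := by
  rw [nn_one]
  obtain ⟨y0, y0'⟩ := yy_mem (F := F) (σ := σ) (w := w) (q := q) (V := V) (H := H) (X := X)
    (a := a) (s := s) (t := t) 0 ω
  obtain ⟨y2, y2'⟩ := yy_mem (F := F) (σ := σ) (w := w) (q := q) (V := V) (H := H) (X := X)
    (a := a) (s := s) (t := t) 2 ω
  obtain ⟨o0, o0'⟩ := om_mem (F := F) (σ := σ) (q := q) (V := V) (H := H) (X := X)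
    (a := a) (s := s) (t := t) 0 ω
  obtain ⟨o2, o2'⟩ := om_mem (F := F) (σ := σ) (q := q) (V := V) (H := H) (X := X)
    (a := a) (s := s) (t := t) 2 ω
  obtain ⟨t0, t1⟩ := Lab.wt_mem F w ω
  have hS := SS_le hF 0 hω
  have e1 : 0 ≤ F.wt w ω * om F σ q V H X a s t 0 ω := mul_nonneg t0 o0
  have e2 : F.wt w ω * om F σ q V H X a s t 0 ω ≤ 1 := mul_le_one₀ t1.le o0 o0'.le
  have e3 : 0 ≤ F.wt w ω * om F σ q V H X a s t 2 ω := mul_nonneg t0 o2
  have e4 : F.wt w ω * om F σ q V H X a s t 2 ω ≤ 1 := mul_le_one₀ t1.le o2 o2'.le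
  have e5 : |SS V H a s t s t' 0 ω * (yy F σ w q V H X a s t 0 ω +
      F.wt w ω * om F σ q V H X a s t 0 ω)| ≤ 4 * 2 := by
    rw [abs_mul]
    refine mul_le_mul hS ?_ (abs_nonneg _) (by norm_num)
    rw [abs_of_nonneg (by linarith)]
    linarith
  have e6 := abs_le.1 e5
  rw [abs_le]
  constructor <;> linarith [e6.1, e6.2]

/-- **(H3)** in one context: the position along the fans at the beginning of the window, from the
position at the exact time. -/
theorem h3_one {p : F.Ω → ℝ} (hp : IsLaw p) (hw : w ≤ J) {G : Type}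
    (v : F.Ω → G) :
    CH p (fun ω => ⌊(2 : ℝ) ^ (q + w + X) * F.x ω (σ 0)⌋)
        (fun ω => (ctx F σ w q V H a s t ω, F.T ω)) -
      (CH p v (fun ω => (ctx F σ w q V H a s t ω, F.T ω)) -
        CH p v (fun ω => (blk F σ w q V H X a s t ω, (ctx F σ w q V H a s t ω, F.T ω)))) -
      Real.log (2 * 5 + 1) ≤
    CH p (Uni.dg X (ye F σ w q V H X a s t))
      (fun ω => (ctx F σ w q V H a s t ω, (F.T ω, v ω))) := by
  have h0 := hp.nonneg
  obtain ⟨y, hy⟩ : ∃ f, f = Uni.dg X (ye F σ w q V H X a s t) := ⟨_, rfl⟩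
  obtain ⟨c, hc⟩ : ∃ f, f = fun ω => (ctx F σ w q V H a s t ω, F.T ω) := ⟨_, rfl⟩
  obtain ⟨b, hb⟩ : ∃ f, f = blk F σ w q V H X a s t := ⟨_, rfl⟩
  obtain ⟨z, hz⟩ : ∃ f : F.Ω → ℤ, f = fun ω => ⌊(2 : ℝ) ^ (q + w + X) * F.x ω (σ 0)⌋ :=
    ⟨_, rfl⟩
  have hcT : ∀ ω ω', c ω = c ω' → ctx F σ w q V H a s t ω = ctx F σ w q V H a s t ω' ∧
      F.T ω = F.T ω' := by
    intro ω ω' h
    rw [hc] at h
    exact Prod.ext_iff.mp h
  -- the digits of the position are known from `y`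
  have k1 : CH p z (fun ω => (y ω, c ω)) ≤ Real.log (2 * 5 + 1) := by
    refine Sel.CH_near hp z _ (fun ω => (y ω : ℝ) + 2 ^ X * F.mkn w (cv q V H) (fr σ a s t) ω 0)
      ?_ (by norm_num) ?_
    · intro ω ω' _ _ h
      have h1 := Prod.ext_iff.mp h
      obtain ⟨h2, h3⟩ := hcT ω ω' h1.2
      have h4 : y ω = y ω' := h1.1
      have h5 := mkn_det (F := F) (c := cv q V H) (M := fr σ a s t) (w := w) h2 h3
      show (y ω : ℝ) + 2 ^ X * F.mkn w (cv q V H) (fr σ a s t) ω 0 =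
        (y ω' : ℝ) + 2 ^ X * F.mkn w (cv q V H) (fr σ a s t) ω' 0
      rw [h4, h5]
    · intro ω _
      have p1 := pos_eq F hw (cv q V H) (fr σ a s t) ω 0
      have p2 : mco (fr σ a s t ω) (F.x ω) 0 = F.x ω (σ 0) := mco_tfr0 _ _ _ _ _
      change 2 ^ (q + w) * mco (fr σ a s t ω) (F.x ω) 0 = _ at p1
      rw [p2] at p1
      have y1 := yt_near (F := F) (σ := σ) (w := w) (q := q) (V := V) (H := H) (X := X)
        (a := a) (s := s) (t := t) 0 ω
      have y2 : |F.mx w (cv q V H) (fr σ a s t) ω 0 - ye F σ w q V H X a s t ω| ≤ 2 / 2 ^ X := by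
        unfold ye
        first
          | exact y1
          | (rw [abs_sub_comm]; exact y1)
      have hX : (0 : ℝ) < 2 ^ X := by positivity
      have y3 : |2 ^ X * F.mx w (cv q V H) (fr σ a s t) ω 0 -
          2 ^ X * ye F σ w q V H X a s t ω| ≤ 2 := by
        rw [← mul_sub, abs_mul, abs_of_pos hX]
        calc (2 : ℝ) ^ X * |F.mx w (cv q V H) (fr σ a s t) ω 0 - ye F σ w q V H X a s t ω| ≤
            2 ^ X * (2 / 2 ^ X) := mul_le_mul_of_nonneg_left y2 hX.le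
          _ = 2 := by field_simp
      have e1 : (2 : ℝ) ^ (q + w + X) * F.x ω (σ 0) =
          2 ^ X * F.mx w (cv q V H) (fr σ a s t) ω 0 +
            2 ^ X * F.mkn w (cv q V H) (fr σ a s t) ω 0 := by
        rw [pow_add, mul_comm ((2 : ℝ) ^ (q + w)) _, mul_assoc, p1]
        ring
      have f1 := Int.floor_le ((2 : ℝ) ^ (q + w + X) * F.x ω (σ 0))
      have f2 := Int.lt_floor_add_one ((2 : ℝ) ^ (q + w + X) * F.x ω (σ 0))
      have f3 := Int.floor_le ((2 : ℝ) ^ X * ye F σ w q V H X a s t ω)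
      have f4 := Int.lt_floor_add_one ((2 : ℝ) ^ X * ye F σ w q V H X a s t ω)
      rw [hz, hy]
      show |((⌊(2 : ℝ) ^ (q + w + X) * F.x ω (σ 0)⌋ : ℤ) : ℝ) -
        (((⌊(2 : ℝ) ^ X * ye F σ w q V H X a s t ω⌋ : ℤ) : ℝ) +
          2 ^ X * F.mkn w (cv q V H) (fr σ a s t) ω 0)| ≤ 5
      rw [e1] at f1 f2 ⊢
      have y4 := abs_le.1 y3
      rw [abs_le]
      constructor <;> linarith [y4.1, y4.2]
  -- `y` is a function of the block, the context and the time
  have k2 : Det p (fun ω => (b ω, c ω)) y := by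
    intro ω ω' _ _ h
    have h1 := Prod.ext_iff.mp h
    obtain ⟨h2, h3⟩ := hcT ω ω' h1.2
    have h4 : b ω = b ω' := h1.1
    rw [hb] at h4
    have e1 : yy F σ w q V H X a s t 0 ω = yy F σ w q V H X a s t 0 ω' := by
      show ((blk F σ w q V H X a s t ω).1 0 : ℝ) / 2 ^ X = (blk F σ w q V H X a s t ω').1 0 / 2 ^ X
      rw [h4]
    have e2 : om F σ q V H X a s t 0 ω = om F σ q V H X a s t 0 ω' := by
      show ((blk F σ w q V H X a s t ω).2 0 : ℝ) / 2 ^ X = (blk F σ w q V H X a s t ω').2 0 / 2 ^ X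
      rw [h4]
    have e3 : F.wt w ω = F.wt w ω' := by
      unfold Fam.wt
      rw [h3]
    rw [hy]
    unfold Uni.dg ye
    rw [e1, e2, e3]
  have k3 := CH_le_add h0 z y c
  have k4 : CH p y c + CH p v (fun ω => (y ω, c ω)) = CH p v c + CH p y (fun ω => (v ω, c ω)) := by
    have a1 := CH_chain h0 y v c
    have a2 := CH_chain h0 v y c
    have a3 : CH p (fun ω => (y ω, v ω)) c = CH p (fun ω => (v ω, y ω)) c := by
      refine le_antisymm (CH_mono_left h0 ?_) (CH_mono_left h0 ?_)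
      · intro ω ω' _ _ h
        have h1 := Prod.ext_iff.mp (Prod.ext_iff.mp h).1
        exact Prod.ext h1.2 h1.1
      · intro ω ω' _ _ h
        have h1 := Prod.ext_iff.mp (Prod.ext_iff.mp h).1
        exact Prod.ext h1.2 h1.1
    linarith
  have k5 : CH p v (fun ω => (b ω, c ω)) ≤ CH p v (fun ω => (y ω, c ω)) :=
    CH_mono_cond h0 fun ω ω' h1 h2 h => Prod.ext (k2 ω ω' h1 h2 h) (Prod.ext_iff.mp h).2
  have k6 : CH p y (fun ω => (v ω, c ω)) =
      CH p y (fun ω => (ctx F σ w q V H a s t ω, (F.T ω, v ω))) := by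
    refine CH_congr h0 ?_ ?_ ?_ ?_
    · exact fun _ _ _ _ e => (Prod.ext_iff.mp e).1
    · exact fun _ _ _ _ e => (Prod.ext_iff.mp e).1
    · intro ω ω' _ _ h
      have h1 := Prod.ext_iff.mp h
      obtain ⟨h2, h3⟩ := hcT ω ω' h1.2
      exact Prod.ext h2 (Prod.ext h3 h1.1)
    · intro ω ω' _ _ h
      have h1 := Prod.ext_iff.mp h
      have h2 := Prod.ext_iff.mp h1.2
      refine Prod.ext h2.2 ?_
      rw [hc]
      exact Prod.ext h1.1 h2.1
  have k7 : CH p v c = CH p v (fun ω => (ctx F σ w q V H a s t ω, F.T ω)) := by rw [hc]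
  have k8 : CH p v (fun ω => (b ω, c ω)) = CH p v (fun ω => (blk F σ w q V H X a s t ω,
      (ctx F σ w q V H a s t ω, F.T ω))) := by rw [hc, hb]
  rw [← hc, ← hz, ← hy] at *
  linarith

end Pool.FALL
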