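import Pool.Agent.H90.S6R.Fall1
import Pool.Agent.H21.FALL.Stmt

/-!
# Falling: the dictionary and the steps of the chains

The frames of the windows have different directions `a` and normal forms `t`, and the same slope
`s`.
-/

set_option autoImplicit false

namespace Pool.FALL

open Finset Real
open Pool.Agent.H49.Ent Pool.Agent.H32.Dense Pool.STK Pool.KA Pool.KA.Box Pool.KSAT Pool.K2S
  Pool.S6N

variable {J : ℕ} {F : Fam 3 J} {A : F.Ω → Prop} {σ : Fin 3 → Fin 3} {w q V H X : ℕ} {D : ℝ}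
  {a s t a' t' : F.Ω → ℝ}

/-- **The dictionary** for theorem OC. -/
theorem ocdata (hσ : Function.Injective σ) (hD4 : D ≤ 4)
    (hF : Frg F A w V H D a s t a' s t') (hQ : IsLaw (Pool.Agent.H49.Ent.cond F.p A True)) :
    OCData (Pool.Agent.H49.Ent.cond F.p A True) (ctx F σ w q V H a s t)
      (blk F σ w q V H X a s t) (gt F a' s t') (yy F σ w q V H X a s t 0)
      (om F σ q V H X a s t 0) (om F σ q V H X a s t 2) (yy F σ w q V H X a s t 2) (F.wt w)
      (SS V H a s t s t' 0) (nn F σ w q V H X a s t s t') := by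
  have key := ocsdata (F := F) (σ := σ) (q := q) (X := X) hσ (B := 2) (by norm_num; linarith)
    hF hQ
  have hA : ∀ ω, 0 < Pool.Agent.H49.Ent.cond F.p A True ω → A ω := fun ω hω =>
    of_eq_true ((cond_pos_iff F.isLaw.nonneg A True ω).1 hω).2
  exact ⟨hQ, key.dy 0, key.dom 0, key.dbe, key.dm0, key.dth, key.dS 0,
    fun ω _ => yy_mem _ ω, fun ω _ => om_mem _ ω, fun ω _ => om_mem _ ω,
    fun ω _ => Lab.wt_mem F w ω, fun ω hω => (SS_le hF 0 (hA ω hω)).trans hD4,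
    fun ω _ => nn_one ω⟩

/-- The frames of two windows. -/
theorem frm_near {w₁ V₁ : ℕ} {a₁ t₁ : F.Ω → ℝ} (hF : Frg F A w V H D a s t a' s t')
    (hF₁ : Frg F A w₁ V₁ H D a₁ s t₁ a' s t') (hD : 0 ≤ D) (hV : V₁ ≤ V) {ω : F.Ω}
    (hω : A ω) : |a ω - a₁ ω| ≤ 2 * D / 2 ^ V₁ ∧ |t ω - t₁ ω| ≤ 2 * D / 2 ^ (V₁ + H) := by
  have c1 := hF.ca ω hω
  have c2 := hF₁.ca ω hω
  have d1 := hF.ct ω hω
  have d2 := hF₁.ct ω hω
  rw [sub_self, zero_mul, add_zero] at d1 d2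
  have m1 := div_pow_mono hD hV
  have m2 := div_pow_mono hD (Nat.add_le_add_right hV H)
  constructor
  · have e : a ω - a₁ ω = (a' ω - a₁ ω) - (a' ω - a ω) := by ring
    have e2 : 2 * D / (2 : ℝ) ^ V₁ = D / 2 ^ V₁ + D / 2 ^ V₁ := by ring
    rw [e, e2]
    exact (abs_sub _ _).trans (add_le_add c2 (c1.trans m1))
  · have e : t ω - t₁ ω = (t' ω - t₁ ω) - (t' ω - t ω) := by ring
    have e2 : 2 * D / (2 : ℝ) ^ (V₁ + H) = D / 2 ^ (V₁ + H) + D / 2 ^ (V₁ + H) := by ring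
    rw [e, e2]
    exact (abs_sub _ _).trans (add_le_add d2 (d1.trans m2))

/-- **The step of the telescope over the windows at fixed `q`.** The window `w` is the shorter
one. -/
theorem h3_step (hw : w ≤ J) {w₁ V₁ : ℕ} {a₁ t₁ : F.Ω → ℝ} (hw₁ : w₁ ≤ J) (hwX : w₁ + X ≤ w)
    (hV : V₁ ≤ V) (hD : 1 ≤ D) (hF : Frg F A w V H D a s t a' s t')
    (hF₁ : Frg F A w₁ V₁ H D a₁ s t₁ a' s t')
    (hQ : IsLaw (Pool.Agent.H49.Ent.cond F.p A True)) :
    CH (Pool.Agent.H49.Ent.cond F.p A True)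
      (fun ω => (Uni.dg X (ye F σ w₁ q V₁ H X a₁ s t₁) ω, ctx F σ w₁ q V₁ H a₁ s t₁ ω))
      (fun ω => (ctx F σ w q V H a s t ω, gt F a' s t' ω)) ≤
      Real.log 15 + (3 * Real.log (2 * D + 1) + 2 * ((3 : ℕ) * Real.log (12 * (2 * D) + 3))) := by
  obtain ⟨p, hp'⟩ : ∃ p, p = Pool.Agent.H49.Ent.cond F.p A True := ⟨_, rfl⟩
  have hfrk := CH_fr (F := F) (A := A) (b := ctx F σ w q V H a s t) hF₁
    (by linarith : (0 : ℝ) ≤ D) hQ
  rw [← hp'] at hQ hfrk ⊢
  have hA : ∀ ω, 0 < p ω → A ω := fun ω hω => by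
    rw [hp'] at hω
    exact of_eq_true ((cond_pos_iff F.isLaw.nonneg A True ω).1 hω).2
  have h0 := hQ.nonneg
  obtain ⟨W, hW⟩ : ∃ f, f = fun ω => (ctx F σ w q V H a s t ω, gt F a' s t' ω) := ⟨_, rfl⟩
  rw [← hW] at hfrk ⊢
  have s2 : CH p (ctx F σ w₁ q V₁ H a₁ s t₁) (fun ω => ((t₁ ω, (s ω, a₁ ω)), W ω)) ≤
      2 * ((3 : ℕ) * Real.log (12 * (2 * D) + 3)) := by
    refine CH_blb_vel (F := F) (σ := σ) (c := cv q V H) (c' := cv q V₁ H) (a := a) (s := s)
      (t := t) (a' := a₁) (s' := s) (t' := t₁) hQ hw (by omega) (by linarith) ?_ ?_ ?_ ?_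
      (fun ω => ((t₁ ω, (s ω, a₁ ω)), W ω)) ?_
    · intro i
      fin_cases i
      · exact le_rfl
      · exact Nat.add_le_add_left hV q
      · change q + (V₁ + H) ≤ q + (V + H)
        omega
    · intro ω hω
      have c1 := (frm_near hF hF₁ (by linarith) hV (hA ω hω)).1
      change |a₁ ω - a ω| ≤ 2 * D * 2 ^ q / 2 ^ (q + V₁)
      rw [abs_sub_comm]
      refine c1.trans (le_of_eq ?_)
      rw [pow_add]
      field_simp
    · intro ω _
      rw [sub_self, abs_zero]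
      positivity
    · intro ω hω
      have c1 := (frm_near hF hF₁ (by linarith) hV (hA ω hω)).2
      rw [sub_self, zero_mul, add_zero]
      change |t₁ ω - t ω| ≤ 2 * D * 2 ^ q / 2 ^ (q + (V₁ + H))
      rw [abs_sub_comm]
      refine c1.trans (le_of_eq ?_)
      rw [pow_add 2 q]
      field_simp
    · intro ω ω' hω hω' h
      have h1 := Prod.ext_iff.mp h
      have h2 := Prod.ext_iff.mp h1.1
      have h3 := Prod.ext_iff.mp h2.2
      have h4 : W ω = W ω' := h1.2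
      rw [hW] at h4
      exact ⟨(Prod.ext_iff.mp h4).1, h3.2, h3.1, h2.1⟩
  have s3 : CH p (Uni.dg X (ye F σ w₁ q V₁ H X a₁ s t₁))
      (fun ω => (ctx F σ w₁ q V₁ H a₁ s t₁ ω, W ω)) ≤ Real.log 15 := by
    have key := Lab.CH_int_const hQ (Uni.dg X (ye F σ w₁ q V₁ H X a₁ s t₁))
      (fun ω => (ctx F σ w₁ q V₁ H a₁ s t₁ ω, W ω)) (c := 7) (by
        intro ω ω' hω hω' h
        have h1 := Prod.ext_iff.mp h
        have h4 : W ω = W ω' := h1.2
        rw [hW] at h4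
        have h5 := Prod.ext_iff.mp h4
        have g1 := floor_near (ye_near (F := F) (X := X) hw hw₁ hwX h5.1 h1.1 (gt_ext h5.2).1)
        change |((⌊(2 : ℝ) ^ X * ye F σ w₁ q V₁ H X a₁ s t₁ ω⌋ -
          ⌊(2 : ℝ) ^ X * ye F σ w₁ q V₁ H X a₁ s t₁ ω'⌋ : ℤ) : ℝ)| ≤ 7
        linarith)
    have e : (2 : ℝ) * 7 + 1 = 15 := by norm_num
    rw [e] at key
    exact key
  have s4 := CH_chain h0 (Uni.dg X (ye F σ w₁ q V₁ H X a₁ s t₁)) (ctx F σ w₁ q V₁ H a₁ s t₁) W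
  have s5 := CH_le_add h0 (ctx F σ w₁ q V₁ H a₁ s t₁) (fun ω => (t₁ ω, (s ω, a₁ ω))) W
  linarith

/-- The digits of the block of theorem OC. -/
noncomputable def vf (F : Fam 3 J) (σ : Fin 3 → Fin 3) (w q V H X : ℕ) (a s t : F.Ω → ℝ)
    (ω : F.Ω) : ℤ × (ℤ × ℤ) :=
  (Uni.dg X (yy F σ w q V H X a s t 0) ω,
    (Uni.dg X (om F σ q V H X a s t 0) ω, Uni.dg X (om F σ q V H X a s t 2) ω))

/-- The exponents of the label with the digits of the block. -/
def kf (w q V H X : ℕ) (i : Fin 3) : ℕ := ![q + w + X, q + V + w, q + (V + H) + w] i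

theorem vf_of_mlb {ω ω' : F.Ω} (h : F.mlb w (kf w q V H X) (cv (q + X) V H) (fr σ a s t) ω =
    F.mlb w (kf w q V H X) (cv (q + X) V H) (fr σ a s t) ω') :
    ctx F σ w q V H a s t ω = ctx F σ w q V H a s t ω' ∧
      vf F σ w q V H X a s t ω = vf F σ w q V H X a s t ω' := by
  have h1 : ctx F σ w q V H a s t ω = ctx F σ w q V H a s t ω' := by
    refine mlb_coarse F ?_ ?_ h
    · intro i
      fin_cases i
      · show q + w ≤ q + w + X
        omega
      · exact le_rfl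
      · exact le_rfl
    · intro i
      rw [cv_add]
      exact Nat.le_add_right _ _
  obtain ⟨k1, k2, k3, k4, k5⟩ := Box.mlb_ext h
  obtain ⟨g1, g2, g3, g4, g5⟩ := Box.mlb_ext h1
  have mu0 : (blk F σ w q V H X a s t ω).1 0 = (blk F σ w q V H X a s t ω').1 0 := by
    show ⌊(2 : ℝ) ^ X * F.mu w (fun i => cv q V H i + w) (fr σ a s t) ω 0⌋ =
      ⌊(2 : ℝ) ^ X * F.mu w (fun i => cv q V H i + w) (fr σ a s t) ω' 0⌋
    rw [Box.fl_mu, Box.fl_mu]
    have e1 := congrFun k3 0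
    have e2 := congrFun g3 0
    have e3 : ∀ v, F.mps w (fun i => cv q V H i + w + X) (fr σ a s t) v 0 =
        F.mps w (kf w q V H X) (fr σ a s t) v 0 := fun v => rfl
    rw [e3, e3, e1, e2]
  have md0 : ∀ i : Fin 3, (blk F σ w q V H X a s t ω).2 i = (blk F σ w q V H X a s t ω').2 i := by
    intro i
    show ⌊(2 : ℝ) ^ X * F.md (cv q V H) (fr σ a s t) ω i⌋ =
      ⌊(2 : ℝ) ^ X * F.md (cv q V H) (fr σ a s t) ω' i⌋
    rw [Box.fl_md, Box.fl_md]
    have e1 := congrFun k4 i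
    have e2 := congrFun g4 i
    rw [cv_add] at e1
    rw [e1, e2]
  refine ⟨h1, ?_⟩
  have eo : ∀ (i : Fin 3) (v : F.Ω), Uni.dg X (om F σ q V H X a s t i) v =
      (blk F σ w q V H X a s t v).2 i := fun i v => dg_om i v
  unfold vf
  rw [dg_yy, dg_yy, eo, eo, eo, eo, mu0, md0, md0]

/-- **One step of the chain with a fixed row.** The window `w₁` is the longer one. -/
theorem h2_step (hF : Frg F A w V H D a s t a' s t') {w₁ q₁ V₁ : ℕ}
    {a₁ t₁ : F.Ω → ℝ} (hF₁ : Frg F A w₁ V₁ H D a₁ s t₁ a' s t')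
    (hD : 1 ≤ D) (hQ : IsLaw (Pool.Agent.H49.Ent.cond F.p A True)) (hw : w ≤ J)
    (hwX : w₁ + X ≤ w) (hVX : V₁ + X ≤ V) (hP : q + V + w = q₁ + V₁ + w₁) :
    CH (Pool.Agent.H49.Ent.cond F.p A True)
        (fun ω => (vf F σ w q V H X a s t ω, ctx F σ w q V H a s t ω))
        (fun ω => (ctx F σ w₁ q₁ V₁ H a₁ s t₁ ω, gt F a' s t' ω)) ≤
      3 * Real.log (2 * D + 1) + 2 * (3 * Real.log (4 * 3 * (2 * D) + 3)) := by
  have hA : ∀ ω, 0 < Pool.Agent.H49.Ent.cond F.p A True ω → A ω := fun ω hω =>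
    of_eq_true ((cond_pos_iff F.isLaw.nonneg A True ω).1 hω).2
  have h0 := hQ.nonneg
  obtain ⟨D', hD'⟩ : ∃ D', D' = 2 * D := ⟨_, rfl⟩
  have hD'1 : 1 ≤ D' := by rw [hD']; linarith
  have bd : ∀ (x : ℝ) (n u v : ℕ), |x| ≤ D' / 2 ^ n → v ≤ n + u → |x| ≤ D' * 2 ^ u / 2 ^ v := by
    intro x n u v hx huv
    refine hx.trans ?_
    rw [div_le_div_iff₀ (by positivity) (by positivity)]
    have e1 : (2 : ℝ) ^ v ≤ 2 ^ (n + u) := pow_le_pow_right₀ (by norm_num) huv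
    rw [pow_add] at e1
    have e2 : 0 ≤ D' := by linarith
    nlinarith [mul_le_mul_of_nonneg_left e1 e2]
  have k1 : CH (Pool.Agent.H49.Ent.cond F.p A True)
      (F.mlb w (kf w q V H X) (cv (q + X) V H) (fr σ a s t))
      (fun ω => ((t ω, (s ω, a ω)), (ctx F σ w₁ q₁ V₁ H a₁ s t₁ ω, gt F a' s t' ω))) ≤
      2 * ((3 : ℕ) * Real.log (4 * (3 : ℕ) * D' + 3)) := by
    refine Box.CH_mlb (F := F) (g := w₁) (g' := w) (k := fun i => cv q₁ V₁ H i + w₁)
      (c := cv q₁ V₁ H) (kk := fun i => cv q₁ V₁ H i + w₁) (M := fr σ a₁ s t₁) hQ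
      (by omega) hw (by linarith) (fun _ => le_rfl) (fun i => by
        have : min w₁ w = w₁ := min_eq_left (by omega)
        rw [this]) ?_ _ ?_
    · intro ω hω
      obtain ⟨n1, n3⟩ := frm_near hF hF₁ (by linarith) (by omega) (hA ω hω)
      rw [← hD'] at n1 n3
      have n2 : |s ω - s ω| ≤ D' / 2 ^ H := by
        rw [sub_self, abs_zero]
        positivity
      have n3' : |(t ω - t₁ ω) + (s ω - s ω) * a₁ ω| ≤ D' / 2 ^ (V₁ + H) := by
        rw [sub_self, zero_mul, add_zero]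
        exact n3
      refine ⟨_, Box.cg_tfr σ (a₁ ω) (s ω) (t₁ ω) (a ω) (s ω) (t ω), ?_, ?_⟩
      · refine Box.tch_le hD'1 ?_ ?_ ?_ ?_ ?_ ?_
        · show q + w + X ≤ q₁ + w₁
          omega
        · show q + V + w ≤ q₁ + V₁ + w₁
          omega
        · show q + (V + H) + w ≤ q₁ + (V₁ + H) + w₁
          omega
        · refine bd _ _ _ _ n1 ?_
          show q + V + w ≤ V₁ + (q₁ + w₁)
          omega
        · refine bd _ _ _ _ n2 ?_
          show q + (V + H) + w ≤ H + (q₁ + V₁ + w₁)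
          omega
        · refine bd _ _ _ _ n3' ?_
          show q + (V + H) + w ≤ V₁ + H + (q₁ + w₁)
          omega
      · refine Box.tch_le hD'1 ?_ ?_ ?_ ?_ ?_ ?_
        · show q + X ≤ q₁
          omega
        · show q + X + V ≤ q₁ + V₁
          omega
        · show q + X + (V + H) ≤ q₁ + (V₁ + H)
          omega
        · refine bd _ _ _ _ n1 ?_
          show q + X + V ≤ V₁ + q₁
          omega
        · refine bd _ _ _ _ n2 ?_
          show q + X + (V + H) ≤ H + (q₁ + V₁)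
          omega
        · refine bd _ _ _ _ n3' ?_
          show q + X + (V + H) ≤ V₁ + H + q₁
          omega
    · intro ω ω' _ _ h
      have h1 := Prod.ext_iff.mp h
      have h2 := Prod.ext_iff.mp h1.2
      have h3 := Prod.ext_iff.mp h1.1
      have h4 := Prod.ext_iff.mp h3.2
      refine ⟨h2.1, Lab.T1_of_T (gt_ext h2.2).1, ?_⟩
      show tfr σ (a ω) (s ω) (t ω) = tfr σ (a ω') (s ω') (t ω')
      have e1 : t ω = t ω' := h3.1
      have e2 : s ω = s ω' := h4.1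
      have e3 : a ω = a ω' := h4.2
      rw [e1, e2, e3]
  have k2 := CH_fr hF (by linarith : (0 : ℝ) ≤ D) hQ (ctx F σ w₁ q₁ V₁ H a₁ s t₁)
  have k3 := CH_le_add h0 (fun ω => (vf F σ w q V H X a s t ω, ctx F σ w q V H a s t ω))
    (fun ω => (t ω, (s ω, a ω)))
    (fun ω => (ctx F σ w₁ q₁ V₁ H a₁ s t₁ ω, gt F a' s t' ω))
  have k4 : CH (Pool.Agent.H49.Ent.cond F.p A True)
      (fun ω => (vf F σ w q V H X a s t ω, ctx F σ w q V H a s t ω))
      (fun ω => ((t ω, (s ω, a ω)), (ctx F σ w₁ q₁ V₁ H a₁ s t₁ ω, gt F a' s t' ω))) ≤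
      CH (Pool.Agent.H49.Ent.cond F.p A True)
        (F.mlb w (kf w q V H X) (cv (q + X) V H) (fr σ a s t))
        (fun ω => ((t ω, (s ω, a ω)), (ctx F σ w₁ q₁ V₁ H a₁ s t₁ ω, gt F a' s t' ω))) :=
    CH_mono_left h0 fun ω ω' _ _ h => by
      obtain ⟨e1, e2⟩ := vf_of_mlb (Prod.ext_iff.mp h).1
      exact Prod.ext e2 e1
  rw [hD'] at k1
  push_cast at k1
  linarith

end Pool.FALL
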