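import Pool.Agent.H21.FALL.One
import Pool.Agent.H97.OC.Thm

/-!
# Falling: one family
-/

set_option autoImplicit false

namespace Pool.FALL

open Finset Real
open Pool.Agent.H49.Ent Pool.Agent.H32.Dense Pool.STK Pool.KA Pool.KA.Box Pool.KSAT Pool.K2S
  Pool.S6N

/-- The context at the place `(i, k)`. -/
noncomputable def cx {J : ℕ} (F : Fam 3 J) (σ : Fin 3 → Fin 3) (N Δ r w₀ V₀ H q₀ : ℕ)
    (a t : ℕ → F.Ω → ℝ) (s : F.Ω → ℝ) (i k : ℕ) :=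
  ctx F σ (fw w₀ Δ i) (fq q₀ Δ r N i k) (fv V₀ r i) H (a i) s (t i)

/-- The block at the place `(i, k)`. -/
noncomputable def bx {J : ℕ} (F : Fam 3 J) (σ : Fin 3 → Fin 3) (N X Δ r w₀ V₀ H q₀ : ℕ)
    (a t : ℕ → F.Ω → ℝ) (s : F.Ω → ℝ) (i k : ℕ) :=
  blk F σ (fw w₀ Δ i) (fq q₀ Δ r N i k) (fv V₀ r i) H X (a i) s (t i)

/-- The normal position at the place `(i, k)`. -/
noncomputable def nx {J : ℕ} (F : Fam 3 J) (σ : Fin 3 → Fin 3) (N X Δ r w₀ V₀ H q₀ : ℕ)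
    (a t : ℕ → F.Ω → ℝ) (s t' : F.Ω → ℝ) (i k : ℕ) :=
  nn F σ (fw w₀ Δ i) (fq q₀ Δ r N i k) (fv V₀ r i) H X (a i) s (t i) s t'

section

variable {J : ℕ} {F : Fam 3 J} {A : F.Ω → Prop} {σ : Fin 3 → Fin 3}
  {N X Δ r w₀ V₀ H q₀ : ℕ} {a t : ℕ → F.Ω → ℝ} {s a' t' : F.Ω → ℝ}

theorem fq_succ (q₀ Δ r N i k : ℕ) : fq q₀ Δ r N i (k + 1) = fq q₀ Δ r N i k + (Δ + r) := by
  unfold fq
  ring

theorem fq_prev (q₀ Δ r : ℕ) {N i : ℕ} (k : ℕ) (h : i + 1 ≤ N) :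
    fq q₀ Δ r N i k = fq q₀ Δ r N (i + 1) k + (Δ + r) := by
  unfold fq
  have e : N - i = (N - (i + 1)) + 1 := by omega
  rw [e]
  ring

theorem fq_diag (q₀ Δ r : ℕ) {N j : ℕ} (d : ℕ) (h : 1 + j ≤ N) :
    fq q₀ Δ r N (1 + j) (j + d) = q₀ + (d + (N - 1)) * (Δ + r) := by
  unfold fq
  have e : j + d + (N - (1 + j)) = d + (N - 1) := by omega
  rw [e]

theorem fw_succ (w₀ Δ i : ℕ) : fw w₀ Δ (i + 1) = fw w₀ Δ i + Δ := by
  unfold fw
  ring

theorem fv_succ (V₀ r i : ℕ) : fv V₀ r (i + 1) = fv V₀ r i + r := by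
  unfold fv
  ring

theorem fw_le {w₀ Δ i N : ℕ} (h : i ≤ N) : fw w₀ Δ i ≤ w₀ + N * Δ := by
  unfold fw
  have := Nat.mul_le_mul_right Δ h
  omega

/-- **Principle M.** -/
theorem sum1 (hQ : IsLaw (Pool.Agent.H49.Ent.cond F.p A True)) (hX : X ≤ Δ) (i M : ℕ) :
    ∑ k ∈ range M, (CH (Pool.Agent.H49.Ent.cond F.p A True) (fun ω => (a' ω, s ω, t' ω))
        (fun ω => (cx F σ N Δ r w₀ V₀ H q₀ a t s i k ω, F.T ω)) -
      CH (Pool.Agent.H49.Ent.cond F.p A True) (fun ω => (a' ω, s ω, t' ω))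
        (fun ω => (bx F σ N X Δ r w₀ V₀ H q₀ a t s i k ω,
          (cx F σ N Δ r w₀ V₀ H q₀ a t s i k ω, F.T ω)))) ≤
      CH (Pool.Agent.H49.Ent.cond F.p A True) (fun ω => (a' ω, s ω, t' ω))
        (fun ω => (cx F σ N Δ r w₀ V₀ H q₀ a t s i 0 ω, F.T ω)) := by
  have h0 := hQ.nonneg
  have h1 := tel_fix h0 (fun ω => (a' ω, s ω, t' ω))
    (fun k => bx F σ N X Δ r w₀ V₀ H q₀ a t s i k) (fun k => cx F σ N Δ r w₀ V₀ H q₀ a t s i k)
    F.T (N := M) (C := 0) le_rfl (fun k _ => by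
      refine le_of_eq (CH_eq_zero h0 fun ω ω' _ _ h => ?_)
      have h2 := (Prod.ext_iff.mp h).1
      unfold cx at h2
      rw [fq_succ] at h2
      obtain ⟨h3, h4⟩ := ctx_next' (X := X) (q := fq q₀ Δ r N i k) (by omega) h2
      exact Prod.ext h4 h3)
  simp only [zero_mul, mul_zero, add_zero] at h1
  exact h1

/-- **(H2)**, the sum over the windows. -/
theorem sum2 (hσ : Function.Injective σ) (hQ : IsLaw (Pool.Agent.H49.Ent.cond F.p A True))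
    (hX : X ≤ Δ) (hr : X ≤ r) (hF : ∀ i ≤ N, Frg F A (fw w₀ Δ i) (fv V₀ r i) H 4 (a i) s (t i) a'
      s t') (hJ : w₀ + N * Δ ≤ J) {N' : ℕ} (hN' : N' ≤ N) (k : ℕ) {C : ℝ}
    (hC1 : 3 * Real.log (2 * 4 + 1) + 2 * (3 * Real.log (4 * 3 * (2 * 4) + 3)) ≤ C)
    (hC2 : Real.log (2 * (5 + 8 * 4) + 1) ≤ C) :
    ∑ i ∈ range N', (CH (Pool.Agent.H49.Ent.cond F.p A True)
        (Uni.dg X (nx F σ N X Δ r w₀ V₀ H q₀ a t s t' (1 + i) k))
        (fun ω => (cx F σ N Δ r w₀ V₀ H q₀ a t s (1 + i) k ω, gt F a' s t' ω)) -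
      CH (Pool.Agent.H49.Ent.cond F.p A True)
        (Uni.dg X (nx F σ N X Δ r w₀ V₀ H q₀ a t s t' (1 + i) k))
        (fun ω => (vf F σ (fw w₀ Δ (1 + i)) (fq q₀ Δ r N (1 + i) k) (fv V₀ r (1 + i)) H X
          (a (1 + i)) s (t (1 + i)) ω,
          (cx F σ N Δ r w₀ V₀ H q₀ a t s (1 + i) k ω, gt F a' s t' ω)))) ≤
      X * Real.log 2 + Real.log (4 * 10 + 1) + 2 * C * N' := by
  have h0 := hQ.nonneg
  have hA : ∀ ω, 0 < Pool.Agent.H49.Ent.cond F.p A True ω → A ω := fun ω hω =>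
    of_eq_true ((cond_pos_iff F.isLaw.nonneg A True ω).1 hω).2
  have h1 := tel_chain h0 (fun j => Uni.dg X (nx F σ N X Δ r w₀ V₀ H q₀ a t s t' (N' - j) k))
    (fun j => vf F σ (fw w₀ Δ (N' - j)) (fq q₀ Δ r N (N' - j) k) (fv V₀ r (N' - j)) H X
          (a (N' - j)) s (t (N' - j)))
    (fun j => cx F σ N Δ r w₀ V₀ H q₀ a t s (N' - j) k) (gt F a' s t') (N := N') (C := C)
    (fun j hj => by
      obtain ⟨i, hi⟩ : ∃ i, N' - j = i + 1 := ⟨N' - j - 1, by omega⟩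
      have hi' : N' - (j + 1) = i := by omega
      rw [hi, hi']
      refine (h2_step (F := F) (σ := σ) (X := X) (hF (i + 1) (by omega)) (hF i (by omega))
        (by norm_num) hQ ((fw_le (by omega)).trans hJ) ?_ ?_ ?_).trans hC1
      · rw [fw_succ]
        omega
      · rw [fv_succ]
        omega
      · rw [fq_prev q₀ Δ r k (by omega : i + 1 ≤ N), fw_succ, fv_succ]
        omega)
    (fun j hj => by
      obtain ⟨i, hi⟩ : ∃ i, N' - j = i + 1 := ⟨N' - j - 1, by omega⟩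
      have hi' : N' - (j + 1) = i := by omega
      rw [hi, hi']
      refine (h2_row (F := F) (σ := σ) (X := X) hσ (hF (i + 1) (by omega)) (hF i (by omega))
        (by norm_num) hQ ((fw_le (by omega)).trans hJ) ((fw_le (by omega)).trans hJ) ?_).trans hC2
      rw [fq_prev q₀ Δ r k (by omega : i + 1 ≤ N), fw_succ, fv_succ]
      omega)
  have h2 : CH (Pool.Agent.H49.Ent.cond F.p A True)
      (Uni.dg X (nx F σ N X Δ r w₀ V₀ H q₀ a t s t' (N' - 0) k))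
      (fun ω => (cx F σ N Δ r w₀ V₀ H q₀ a t s (N' - 0) k ω, gt F a' s t' ω)) ≤
      X * Real.log 2 + Real.log (4 * 10 + 1) :=
    CH_dg_bd hQ _ _ (by norm_num) fun ω hω => nn_bd (hF (N' - 0) (by omega)) (hA ω hω)
  have h3 := CH_nonneg h0 (Uni.dg X (nx F σ N X Δ r w₀ V₀ H q₀ a t s t' (N' - N') k))
    (fun ω => (cx F σ N Δ r w₀ V₀ H q₀ a t s (N' - N') k ω, gt F a' s t' ω))
  rw [← Finset.sum_range_reflect] at h1
  have h4 : ∀ i ∈ range N', N' - (N' - 1 - i) = 1 + i := by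
    intro i hi
    have := Finset.mem_range.1 hi
    omega
  rw [Finset.sum_congr rfl fun i hi => by rw [h4 i hi]] at h1
  linarith only [h1, h2, h3]

/-- **(H3)**, the sum over the diagonals. -/
theorem sum3 (hQ : IsLaw (Pool.Agent.H49.Ent.cond F.p A True))
    (hX : X ≤ Δ) (hF : ∀ i ≤ N, Frg F A (fw w₀ Δ i) (fv V₀ r i) H 4 (a i) s (t i) a'
      s t') (hJ : w₀ + N * Δ ≤ J) {N' : ℕ} (hN' : N' + 1 ≤ N) (d : ℕ) {C : ℝ}
    (hC : Real.log 15 + (3 * Real.log (2 * 4 + 1) + 2 * ((3 : ℕ) * Real.log (12 * (2 * 4) + 3))) ≤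
      C) :
    ∑ i ∈ range N', (CH (Pool.Agent.H49.Ent.cond F.p A True)
        (Uni.dg X (om F σ (fq q₀ Δ r N (1 + i) (i + d)) (fv V₀ r (1 + i)) H X (a (1 + i)) s
          (t (1 + i)) 0))
        (fun ω => (cx F σ N Δ r w₀ V₀ H q₀ a t s (1 + i) (i + d) ω, gt F a' s t' ω)) -
      CH (Pool.Agent.H49.Ent.cond F.p A True)
        (Uni.dg X (om F σ (fq q₀ Δ r N (1 + i) (i + d)) (fv V₀ r (1 + i)) H X (a (1 + i)) s
          (t (1 + i)) 0))
        (fun ω => (Uni.dg X (ye F σ (fw w₀ Δ (1 + i)) (fq q₀ Δ r N (1 + i) (i + d))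
          (fv V₀ r (1 + i)) H X (a (1 + i)) s (t (1 + i))) ω,
          (cx F σ N Δ r w₀ V₀ H q₀ a t s (1 + i) (i + d) ω, gt F a' s t' ω)))) ≤
      X * Real.log 2 + 2 * C * N' := by
  have h0 := hQ.nonneg
  obtain ⟨Q, hQd⟩ : ∃ Q, Q = q₀ + (d + (N - 1)) * (Δ + r) := ⟨_, rfl⟩
  have hQj : ∀ j, 1 + j ≤ N → fq q₀ Δ r N (1 + j) (j + d) = Q := fun j hj => by
    rw [hQd]
    exact fq_diag q₀ Δ r d hj
  obtain ⟨n, hn⟩ : ∃ n, n = Uni.dg X (om F σ Q 0 0 X (a 0) s (t 0) 0) := ⟨_, rfl⟩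
  have hn' : ∀ j, Uni.dg X (om F σ Q (fv V₀ r (1 + j)) H X (a (1 + j)) s (t (1 + j)) 0) = n := by
    intro j
    rw [hn]
    exact dg_om0 (w₁ := 0)
  have h15 : 0 ≤ Real.log 15 := Real.log_nonneg (by norm_num)
  have h9 : 0 ≤ Real.log (2 * 4 + 1) := Real.log_nonneg (by norm_num)
  have h99 : 0 ≤ Real.log (12 * (2 * 4) + 3) := Real.log_nonneg (by norm_num)
  have hC0 : 0 ≤ C := le_trans (by positivity) hC
  have h1 := tel_fix h0 n (fun j => Uni.dg X (ye F σ (fw w₀ Δ (1 + j)) Q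
          (fv V₀ r (1 + j)) H X (a (1 + j)) s (t (1 + j))))
    (fun j => ctx F σ (fw w₀ Δ (1 + j)) Q (fv V₀ r (1 + j)) H (a (1 + j)) s (t (1 + j)))
    (gt F a' s t') (N := N') (C := C) hC0 (fun j hj => by
      have e : 1 + (j + 1) = (1 + j) + 1 := by omega
      simp only [e]
      refine (h3_step (F := F) (σ := σ) (q := Q) (X := X) ((fw_le (by omega)).trans hJ)
        ((fw_le (by omega)).trans hJ) ?_ ?_ (by norm_num) (hF (1 + j + 1) (by omega))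
        (hF (1 + j) (by omega)) hQ).trans hC
      · rw [fw_succ]
        omega
      · rw [fv_succ]
        omega)
  have h2 : CH (Pool.Agent.H49.Ent.cond F.p A True) n (fun ω => (ctx F σ (fw w₀ Δ (1 + 0)) Q
      (fv V₀ r (1 + 0)) H (a (1 + 0)) s (t (1 + 0)) ω, gt F a' s t' ω)) ≤ X * Real.log 2 := by
    rw [hn]
    exact Uni.dg_card hQ X (fun ω _ => om_mem 0 ω) _
  refine le_trans (le_of_eq ?_) (h1.trans (by linarith only [h2]))
  refine Finset.sum_congr rfl fun i hi => ?_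
  have hi' := Finset.mem_range.1 hi
  unfold cx
  rw [hQj i (by omega), hn' i]

/-- The three quantities. -/
noncomputable def g1 {J : ℕ} (F : Fam 3 J) (A : F.Ω → Prop) (σ : Fin 3 → Fin 3)
    (N X Δ r w₀ V₀ H q₀ : ℕ) (a t : ℕ → F.Ω → ℝ) (s a' t' : F.Ω → ℝ) (i k : ℕ) : ℝ :=
  CH (Pool.Agent.H49.Ent.cond F.p A True) (fun ω => (a' ω, s ω, t' ω))
      (fun ω => (cx F σ N Δ r w₀ V₀ H q₀ a t s i k ω, F.T ω)) -
    CH (Pool.Agent.H49.Ent.cond F.p A True) (fun ω => (a' ω, s ω, t' ω))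
      (fun ω => (bx F σ N X Δ r w₀ V₀ H q₀ a t s i k ω,
        (cx F σ N Δ r w₀ V₀ H q₀ a t s i k ω, F.T ω)))

/-- The defect in (H2). -/
noncomputable def g2 {J : ℕ} (F : Fam 3 J) (A : F.Ω → Prop) (σ : Fin 3 → Fin 3)
    (N X Δ r w₀ V₀ H q₀ : ℕ) (a t : ℕ → F.Ω → ℝ) (s a' t' : F.Ω → ℝ) (i k : ℕ) : ℝ :=
  CH (Pool.Agent.H49.Ent.cond F.p A True)
      (Uni.dg X (nx F σ N X Δ r w₀ V₀ H q₀ a t s t' i k))
      (fun ω => (cx F σ N Δ r w₀ V₀ H q₀ a t s i k ω, gt F a' s t' ω)) -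
    CH (Pool.Agent.H49.Ent.cond F.p A True)
      (Uni.dg X (nx F σ N X Δ r w₀ V₀ H q₀ a t s t' i k))
      (fun ω => (vf F σ (fw w₀ Δ i) (fq q₀ Δ r N i k) (fv V₀ r i) H X (a i) s (t i) ω,
        (cx F σ N Δ r w₀ V₀ H q₀ a t s i k ω, gt F a' s t' ω)))

/-- The defect in (H3). -/
noncomputable def g3 {J : ℕ} (F : Fam 3 J) (A : F.Ω → Prop) (σ : Fin 3 → Fin 3)
    (N X Δ r w₀ V₀ H q₀ : ℕ) (a t : ℕ → F.Ω → ℝ) (s a' t' : F.Ω → ℝ) (i k : ℕ) : ℝ :=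
  CH (Pool.Agent.H49.Ent.cond F.p A True)
      (Uni.dg X (om F σ (fq q₀ Δ r N i k) (fv V₀ r i) H X (a i) s (t i) 0))
      (fun ω => (cx F σ N Δ r w₀ V₀ H q₀ a t s i k ω, gt F a' s t' ω)) -
    CH (Pool.Agent.H49.Ent.cond F.p A True)
      (Uni.dg X (om F σ (fq q₀ Δ r N i k) (fv V₀ r i) H X (a i) s (t i) 0))
      (fun ω => (Uni.dg X (ye F σ (fw w₀ Δ i) (fq q₀ Δ r N i k)
        (fv V₀ r i) H X (a i) s (t i)) ω,
        (cx F σ N Δ r w₀ V₀ H q₀ a t s i k ω, gt F a' s t' ω)))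

end

/-- **(FALL)**, one family, from theorem OC in the mean over the context. -/
theorem fall_one_of (hOCB : OCBStmt) : FallOneStmt := by
  intro c ca hc hca
  obtain ⟨x₀, κ, ϖ, ι, ε, X₁, hx₀, hκ, hκ1, hϖ, hι, hε, key⟩ := hOCB c ca hc hca
  obtain ⟨C, hC⟩ : ∃ C, C = 3 * Real.log (2 * 4 + 1) + 2 * (3 * Real.log (4 * 3 * (2 * 4) + 3)) +
    Real.log (2 * (5 + 8 * 4) + 1) + (Real.log 15 + (3 * Real.log (2 * 4 + 1) +
      2 * ((3 : ℕ) * Real.log (12 * (2 * 4) + 3)))) := ⟨_, rfl⟩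
  have l1 : 0 ≤ 3 * Real.log (2 * 4 + 1) + 2 * (3 * Real.log (4 * 3 * (2 * 4) + 3)) := by
    have := Real.log_nonneg (by norm_num : (1 : ℝ) ≤ 2 * 4 + 1)
    have := Real.log_nonneg (by norm_num : (1 : ℝ) ≤ 4 * 3 * (2 * 4) + 3)
    positivity
  have l2 : 0 ≤ Real.log (2 * (5 + 8 * 4) + 1) := Real.log_nonneg (by norm_num)
  have l3 : 0 ≤ Real.log 15 + (3 * Real.log (2 * 4 + 1) +
      2 * ((3 : ℕ) * Real.log (12 * (2 * 4) + 3))) := by
    have := Real.log_nonneg (by norm_num : (1 : ℝ) ≤ 2 * 4 + 1)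
    have := Real.log_nonneg (by norm_num : (1 : ℝ) ≤ 12 * (2 * 4) + 3)
    have := Real.log_nonneg (by norm_num : (1 : ℝ) ≤ 15)
    positivity
  have hC1 : 3 * Real.log (2 * 4 + 1) + 2 * (3 * Real.log (4 * 3 * (2 * 4) + 3)) ≤ C := by linarith only [hC, l2, l3]
  have hC2 : Real.log (2 * (5 + 8 * 4) + 1) ≤ C := by linarith only [hC, l1, l3]
  have hC3 : Real.log 15 + (3 * Real.log (2 * 4 + 1) +
      2 * ((3 : ℕ) * Real.log (12 * (2 * 4) + 3))) ≤ C := by linarith only [hC, l1, l2]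
  have hC0 : 0 ≤ C := l1.trans hC1
  obtain ⟨N', hN'⟩ := exists_nat_ge (200 / ι + 1)
  have h200 : (0 : ℝ) < 200 / ι := by positivity
  have hN'1 : (1 : ℝ) ≤ N' := by linarith only [hN', h200]
  have hN'0 : 0 < N' := by
    have : (0 : ℝ) < N' := by linarith only [hN', h200]
    exact_mod_cast this
  refine ⟨x₀, κ, ϖ, ι / 16, ε, N' + 1, hx₀, hκ, hκ1, hϖ, by positivity, hε, fun β => ?_⟩
  obtain ⟨M₀, hM₀⟩ := exists_nat_ge (100 * β / ι)
  obtain ⟨M₁, hM₁⟩ : ∃ M₁, M₁ = max N' M₀ := ⟨_, rfl⟩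
  have hM₁N : N' ≤ M₁ := by rw [hM₁]; exact le_max_left _ _
  have hM₁0 : (0 : ℝ) < M₁ := by
    have : 0 < M₁ := by omega
    exact_mod_cast this
  have hM₁β : β ≤ ι / 100 * M₁ := by
    have h1 : (M₀ : ℝ) ≤ M₁ := by
      rw [hM₁]
      exact_mod_cast le_max_right _ _
    have h2 := hM₀.trans h1
    rw [div_le_iff₀ hι] at h2
    linarith only [h2]
  obtain ⟨X₂, hX₂⟩ := exists_nat_ge (100 * (2 * Real.log 41 + 6 * C + Real.log 11 + 1) / ι)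
  refine ⟨N' + M₁, max X₁ (max X₂ 1), ?_⟩
  intro J F A σ X Δ r w₀ V₀ H q₀ D e B a t s a' t' hX he hB h
  have hX1 : X₁ ≤ X := (le_max_left _ _).trans hX
  have hX2 : X₂ ≤ X := ((le_max_left _ _).trans (le_max_right _ _)).trans hX
  have hX3 : 1 ≤ X := ((le_max_right _ _).trans (le_max_right _ _)).trans hX
  have hXr : (1 : ℝ) ≤ X := by exact_mod_cast hX3
  have hXc : 100 * (2 * Real.log 41 + 6 * C + Real.log 11 + 1) ≤ ι * X := by
    have h1 : (X₂ : ℝ) ≤ X := by exact_mod_cast hX2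
    have h2 := hX₂.trans h1
    rw [div_le_iff₀ hι] at h2
    linarith only [h2]
  have hQ := h.law
  have h0 := hQ.nonneg
  have hF : ∀ i ≤ N' + 1, Frg F A (fw w₀ Δ i) (fv V₀ r i) H 4 (a i) s (t i) a' s t' :=
    fun i hi => frg_mono h.D4 (h.frg i hi)
  have htop : w₀ + (N' + 1) * Δ + X ≤ J := h.top
  have hJ : w₀ + (N' + 1) * Δ ≤ J := by omega
  have hl2 : Real.log 2 < 0.7 := by
    have := Real.log_two_lt_d9
    linarith only [this]
  have hl2' : 0.6 < Real.log 2 := by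
    have := Real.log_two_gt_d9
    linarith only [hl2, this]
  have h41 : 0 ≤ Real.log 41 := Real.log_nonneg (by norm_num)
  have h11 : 0 ≤ Real.log 11 := Real.log_nonneg (by norm_num)
  -- the grid
  obtain ⟨i, hi, d, hd, hid⟩ := grid_rect
    (f₁ := fun i k => g1 F A σ (N' + 1) X Δ r w₀ V₀ H q₀ a t s a' t' (1 + i) k)
    (f₂ := fun i k => g2 F A σ (N' + 1) X Δ r w₀ V₀ H q₀ a t s a' t' (1 + i) k)
    (f₃ := fun i k => g3 F A σ (N' + 1) X Δ r w₀ V₀ H q₀ a t s a' t' (1 + i) k)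
    (fun i k => sub_nonneg.2 (CH_mono_cond h0 fun ω ω' _ _ h => (Prod.ext_iff.mp h).2))
    (fun i k => sub_nonneg.2 (CH_mono_cond h0 fun ω ω' _ _ h => (Prod.ext_iff.mp h).2))
    (N := N') (M := M₁) hN'0 hM₁N (S₁ := B)
    (S₂ := X * Real.log 2 + Real.log (4 * 10 + 1) + 2 * C * N')
    (S₃ := X * Real.log 2 + 2 * C * N')
    (fun i hi => (sum1 hQ h.XΔ (1 + i) (N' + M₁)).trans (h.dig (1 + i) (by omega)))
    (fun k _ => sum2 h.inj hQ h.XΔ h.Xr hF hJ (by omega) k hC1 hC2)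
    (fun d _ => sum3 hQ h.XΔ hF hJ (by omega) d hC3)
    (by
      have e1 : (4 : ℝ) * 10 + 1 = 41 := by norm_num
      rw [e1]
      positivity)
  have p1 : 0 ≤ g1 F A σ (N' + 1) X Δ r w₀ V₀ H q₀ a t s a' t' (1 + i) (i + d) :=
    sub_nonneg.2 (CH_mono_cond h0 fun ω ω' _ _ h => (Prod.ext_iff.mp h).2)
  have p2 : 0 ≤ g2 F A σ (N' + 1) X Δ r w₀ V₀ H q₀ a t s a' t' (1 + i) (i + d) :=
    sub_nonneg.2 (CH_mono_cond h0 fun ω ω' _ _ h => (Prod.ext_iff.mp h).2)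
  have p3 : 0 ≤ g3 F A σ (N' + 1) X Δ r w₀ V₀ H q₀ a t s a' t' (1 + i) (i + d) :=
    sub_nonneg.2 (CH_mono_cond h0 fun ω ω' _ _ h => (Prod.ext_iff.mp h).2)
  have hsum : B / M₁ + 2 * (X * Real.log 2 + Real.log (4 * 10 + 1) + 2 * C * N') / N' +
      (X * Real.log 2 + 2 * C * N') / N' ≤ ι / 20 * X := by
    have e1 : (4 : ℝ) * 10 + 1 = 41 := by norm_num
    rw [e1]
    have s1 : B / M₁ ≤ ι / 100 * X := by
      rw [div_le_iff₀ hM₁0]
      have := mul_le_mul_of_nonneg_right hM₁β (by positivity : (0 : ℝ) ≤ X)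
      linarith only [hB, this]
    have hN'p : (0 : ℝ) < N' := by linarith only [hN', h200, hl2, hl2']
    have hNι : 200 ≤ ι * N' := by
      have h1 : 200 / ι ≤ N' := by linarith only [hN', hl2, hl2']
      rw [div_le_iff₀ hι] at h1
      linarith only [h1]
    have s2 : 2 * (X * Real.log 2 + Real.log 41 + 2 * C * N') / N' +
        (X * Real.log 2 + 2 * C * N') / N' ≤ 3 * 0.7 / 200 * ι * X +
          (2 * Real.log 41 + 6 * C) := by
      rw [← add_div, div_le_iff₀ hN'p]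
      have t1 : (X : ℝ) * Real.log 2 ≤ 0.7 * X := by nlinarith only [hl2]
      have t2 : 3 * 0.7 * (X : ℝ) ≤ 3 * 0.7 / 200 * ι * X * N' := by
        have : (X : ℝ) * 200 ≤ X * (ι * N') := mul_le_mul_of_nonneg_left hNι (by linarith only [hXr, hl2, hl2'])
        nlinarith only [this]
      have t3 : 2 * Real.log 41 ≤ 2 * Real.log 41 * N' := by nlinarith only [hN', h41, h200]
      nlinarith only [t1, t2, t3]
    linarith only [hC, l1, l2, l3, hXc, hl2, hl2', h41, h11, s1, s2]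
  have hid' := hid.trans hsum
  have q1 : g1 F A σ (N' + 1) X Δ r w₀ V₀ H q₀ a t s a' t' (1 + i) (i + d) ≤ ι / 20 * X := by
    linarith only [hid, p2, p3, hsum]
  have q2 : g2 F A σ (N' + 1) X Δ r w₀ V₀ H q₀ a t s a' t' (1 + i) (i + d) ≤ ι / 20 * X := by
    linarith only [hid, p1, p3, hsum]
  have q13 : g1 F A σ (N' + 1) X Δ r w₀ V₀ H q₀ a t s a' t' (1 + i) (i + d) +
      g3 F A σ (N' + 1) X Δ r w₀ V₀ H q₀ a t s a' t' (1 + i) (i + d) ≤ ι / 20 * X := by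
    linarith only [hid, p2, hsum]
  have hιX : 0 ≤ ι * X := by positivity
  have hiN : 1 + i ≤ N' + 1 := by omega
  have hkM : i + d < N' + M₁ := by omega
  have hw : fw w₀ Δ (1 + i) ≤ J := (fw_le hiN).trans hJ
  have hwX : fw w₀ Δ (1 + i) + X ≤ J := by
    have := fw_le (w₀ := w₀) (Δ := Δ) hiN
    omega
  -- the application
  refine key F.Ω _ _ _ (Pool.Agent.H49.Ent.cond F.p A True) _ _ _ _ _ _ _ _ _ _ X
    (ocdata (q := fq q₀ Δ r (N' + 1) (1 + i) (i + d)) (X := X) h.inj le_rfl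
      (hF (1 + i) hiN) hQ) hX1 ?_ ?_ ?_ ?_ (h.act (1 + i) hiN (i + d) hkM)
    (h.row (1 + i) hiN (i + d) hkM) (h.tur (1 + i) hiN (i + d) hkM)
  · -- (h1)
    have k1 := h1r (F := F) (σ := σ) (q := fq q₀ Δ r (N' + 1) (1 + i) (i + d)) (X := X)
      (hF (1 + i) hiN) hw hQ h.time
    refine k1.trans ?_
    have k2 : CH (Pool.Agent.H49.Ent.cond F.p A True) (fun ω => (a' ω, s ω, t' ω))
          (fun ω => (ctx F σ (fw w₀ Δ (1 + i)) (fq q₀ Δ r (N' + 1) (1 + i) (i + d))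
            (fv V₀ r (1 + i)) H (a (1 + i)) s (t (1 + i)) ω, F.T ω)) -
        CH (Pool.Agent.H49.Ent.cond F.p A True) (fun ω => (a' ω, s ω, t' ω))
          (fun ω => (blk F σ (fw w₀ Δ (1 + i)) (fq q₀ Δ r (N' + 1) (1 + i) (i + d))
            (fv V₀ r (1 + i)) H X (a (1 + i)) s (t (1 + i)) ω,
            (ctx F σ (fw w₀ Δ (1 + i)) (fq q₀ Δ r (N' + 1) (1 + i) (i + d))
              (fv V₀ r (1 + i)) H (a (1 + i)) s (t (1 + i)) ω, F.T ω))) ≤ ι / 20 * X := q1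
    linarith only [hC, l1, l2, l3, he, hXc, hl2, hl2', h41, h11, k2]
  · -- (h1')
    have k1 := h1r_dig (F := F) (σ := σ) (q := fq q₀ Δ r (N' + 1) (1 + i) (i + d)) (X := X)
      (hF (1 + i) hiN) hwX hQ h.time
    refine le_trans ?_ k1
    nlinarith only [hC, l1, l2, l3, he, hXc, h41, h11, hl2, hl2']
  · -- (h2)
    have k2 : CH (Pool.Agent.H49.Ent.cond F.p A True)
        (Uni.dg X (nn F σ (fw w₀ Δ (1 + i)) (fq q₀ Δ r (N' + 1) (1 + i) (i + d))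
          (fv V₀ r (1 + i)) H X (a (1 + i)) s (t (1 + i)) s t'))
        (fun ω => (ctx F σ (fw w₀ Δ (1 + i)) (fq q₀ Δ r (N' + 1) (1 + i) (i + d))
            (fv V₀ r (1 + i)) H (a (1 + i)) s (t (1 + i)) ω, gt F a' s t' ω)) -
      CH (Pool.Agent.H49.Ent.cond F.p A True)
        (Uni.dg X (nn F σ (fw w₀ Δ (1 + i)) (fq q₀ Δ r (N' + 1) (1 + i) (i + d))
          (fv V₀ r (1 + i)) H X (a (1 + i)) s (t (1 + i)) s t'))
        (fun ω => (vf F σ (fw w₀ Δ (1 + i)) (fq q₀ Δ r (N' + 1) (1 + i) (i + d))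
            (fv V₀ r (1 + i)) H X (a (1 + i)) s (t (1 + i)) ω,
          (ctx F σ (fw w₀ Δ (1 + i)) (fq q₀ Δ r (N' + 1) (1 + i) (i + d))
            (fv V₀ r (1 + i)) H (a (1 + i)) s (t (1 + i)) ω, gt F a' s t' ω))) ≤
        ι / 20 * X := q2
    exact k2.trans (by linarith only [hC, l1, l2, l3, hXc, hl2, hl2', h41, h11])
  · -- (h3)
    have k1 := h3f (F := F) (σ := σ) (w := fw w₀ Δ (1 + i))
      (q := fq q₀ Δ r (N' + 1) (1 + i) (i + d)) (V := fv V₀ r (1 + i)) (H := H) (X := X)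
      (a := a (1 + i)) (s := s) (t := t (1 + i)) hQ (gt F a' s t') fun ω ω' h => (gt_ext h).1
    have k2 := h3_one (F := F) (σ := σ) (w := fw w₀ Δ (1 + i))
      (q := fq q₀ Δ r (N' + 1) (1 + i) (i + d)) (V := fv V₀ r (1 + i)) (H := H) (X := X)
      (a := a (1 + i)) (s := s) (t := t (1 + i)) hQ hw (fun ω => (a' ω, s ω, t' ω))
    have k3 := h.wfe (1 + i) hiN (i + d) hkM
    have e1 : (2 : ℝ) * 5 + 1 = 11 := by norm_num
    rw [e1] at k2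
    refine le_trans ?_ k1
    have k4 : CH (Pool.Agent.H49.Ent.cond F.p A True) (fun ω => (a' ω, s ω, t' ω))
          (fun ω => (ctx F σ (fw w₀ Δ (1 + i)) (fq q₀ Δ r (N' + 1) (1 + i) (i + d))
            (fv V₀ r (1 + i)) H (a (1 + i)) s (t (1 + i)) ω, F.T ω)) -
        CH (Pool.Agent.H49.Ent.cond F.p A True) (fun ω => (a' ω, s ω, t' ω))
          (fun ω => (blk F σ (fw w₀ Δ (1 + i)) (fq q₀ Δ r (N' + 1) (1 + i) (i + d))
            (fv V₀ r (1 + i)) H X (a (1 + i)) s (t (1 + i)) ω,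
            (ctx F σ (fw w₀ Δ (1 + i)) (fq q₀ Δ r (N' + 1) (1 + i) (i + d))
              (fv V₀ r (1 + i)) H (a (1 + i)) s (t (1 + i)) ω, F.T ω))) +
        (CH (Pool.Agent.H49.Ent.cond F.p A True)
          (Uni.dg X (om F σ (fq q₀ Δ r (N' + 1) (1 + i) (i + d)) (fv V₀ r (1 + i)) H X
            (a (1 + i)) s (t (1 + i)) 0))
          (fun ω => (ctx F σ (fw w₀ Δ (1 + i)) (fq q₀ Δ r (N' + 1) (1 + i) (i + d))
              (fv V₀ r (1 + i)) H (a (1 + i)) s (t (1 + i)) ω, gt F a' s t' ω)) -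
        CH (Pool.Agent.H49.Ent.cond F.p A True)
          (Uni.dg X (om F σ (fq q₀ Δ r (N' + 1) (1 + i) (i + d)) (fv V₀ r (1 + i)) H X
            (a (1 + i)) s (t (1 + i)) 0))
          (fun ω => (Uni.dg X (ye F σ (fw w₀ Δ (1 + i))
              (fq q₀ Δ r (N' + 1) (1 + i) (i + d)) (fv V₀ r (1 + i)) H X (a (1 + i)) s
              (t (1 + i))) ω,
            (ctx F σ (fw w₀ Δ (1 + i)) (fq q₀ Δ r (N' + 1) (1 + i) (i + d))
              (fv V₀ r (1 + i)) H (a (1 + i)) s (t (1 + i)) ω, gt F a' s t' ω)))) ≤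
        ι / 20 * X := q13
    have k5 : CH (Pool.Agent.H49.Ent.cond F.p A True)
        (Uni.dg X (ye F σ (fw w₀ Δ (1 + i))
          (fq q₀ Δ r (N' + 1) (1 + i) (i + d)) (fv V₀ r (1 + i)) H X (a (1 + i)) s (t (1 + i))))
        (fun ω => (ctx F σ (fw w₀ Δ (1 + i)) (fq q₀ Δ r (N' + 1) (1 + i) (i + d))
          (fv V₀ r (1 + i)) H (a (1 + i)) s (t (1 + i)) ω,
          (F.T ω, (fun ω => (a' ω, s ω, t' ω)) ω))) =
      CH (Pool.Agent.H49.Ent.cond F.p A True)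
        (Uni.dg X (ye F σ (fw w₀ Δ (1 + i))
          (fq q₀ Δ r (N' + 1) (1 + i) (i + d)) (fv V₀ r (1 + i)) H X (a (1 + i)) s (t (1 + i))))
        (fun ω => (ctx F σ (fw w₀ Δ (1 + i)) (fq q₀ Δ r (N' + 1) (1 + i) (i + d))
          (fv V₀ r (1 + i)) H (a (1 + i)) s (t (1 + i)) ω, gt F a' s t' ω)) := rfl
    rw [k5] at k2
    have k6 : e ≤ ι / 16 * X := he
    have k7 : Real.log 11 ≤ ι / 100 * X := by linarith only [hC, l1, l2, l3, hXc, hl2, hl2', h41]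
    have k8 : (1 - ι) * X * Real.log 2 = X * Real.log 2 - ι * X * Real.log 2 := by ring
    have k9 : 0.6 * (ι * X) ≤ ι * X * Real.log 2 := by nlinarith only [hC, hl2, l1, hl2', l2, l3, hXc, h41, h11]
    rw [k8]
    linarith only [hC, l1, l2, l3, he, hXc, hl2, hl2', h41, h11, k2, k3, k4, k9]

/-- **(FALL)**, one family. -/
theorem fall_one : FallOneStmt := fall_one_of (ocb_thm Pool.OC.oc_thm)

end Pool.FALL
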