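import Pool.Agent.H90.S6R.Fall1
import Pool.Agent.H88.S6F.Frm

/-!
# Falling: the contexts are visible from the exact point and the digits of the base velocity
-/

set_option autoImplicit false

namespace Pool.FALL

open Finset Real
open Pool.Agent.H49.Ent Pool.Agent.H32.Dense Pool.STK Pool.KA Pool.KA.Box Pool.KSAT Pool.K2S
  Pool.S6N

section fall

variable {J : ℕ} {F : Fam 3 J} {A : F.Ω → Prop} {σ : Fin 3 → Fin 3} {w q V H X : ℕ} {D : ℝ}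
  {a s t a' s' t' : F.Ω → ℝ}

/-- The context is visible. -/
theorem ctx_vis2 (hF : Frg F A w V H D a s t a' s' t') (hw : w ≤ J)
    (hD : 1 ≤ D) (hQ : IsLaw (Pool.Agent.H49.Ent.cond F.p A True)) {B : ℝ} (hB : 1 ≤ B)
    (hb : ∀ ω, A ω → |a' ω| ≤ B ∧ |s' ω| ≤ B ∧ |t' ω| ≤ B) (hP : q + (V + H) + w ≤ J)
    (hfr : ∀ ω ω', A ω → A ω' → Fam.pt F ω = Fam.pt F ω' →
      a' ω = a' ω' ∧ s' ω = s' ω' ∧ t' ω = t' ω')
    (hu : ∀ ω ω', A ω → A ω' → Fam.pt F ω = Fam.pt F ω' →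
      ⌊(2 : ℝ) ^ q * F.d ω (σ 0)⌋ = ⌊(2 : ℝ) ^ q * F.d ω' (σ 0)⌋ →
      |(F.d ω (σ 1) - a' ω * F.d ω (σ 0)) - (F.d ω' (σ 1) - a' ω * F.d ω' (σ 0))| ≤
        B / 2 ^ (q + V))
    (hN : ∀ ω ω', A ω → A ω' → Fam.pt F ω = Fam.pt F ω' →
      ⌊(2 : ℝ) ^ q * F.d ω (σ 0)⌋ = ⌊(2 : ℝ) ^ q * F.d ω' (σ 0)⌋ →
      |(F.d ω (σ 2) - s' ω * F.d ω (σ 1) - t' ω * F.d ω (σ 0)) -
        (F.d ω' (σ 2) - s' ω * F.d ω' (σ 1) - t' ω * F.d ω' (σ 0))| ≤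
        B / 2 ^ (q + (V + H))) :
    CH (Pool.Agent.H49.Ent.cond F.p A True)
      (fun ω => (ctx F σ w q V H a s t ω, gt F a' s' t' ω))
      (fun ω => (⌊(2 : ℝ) ^ q * F.d ω (σ 0)⌋, Fam.pt F ω)) ≤ 3 * Real.log (2 * D + 1) +
      2 * ((3 : ℕ) * Real.log (2 * ((3 : ℕ) * (D + D * D) *
        (2 * ((3 : ℕ) * (3 * B) + (3 * B)))) + 3)) := by
  obtain ⟨W, hW⟩ : ∃ f : F.Ω → ℤ × ((Fin 3 → ℤ) × (ℕ × F.ζ)),
    f = fun ω => (⌊(2 : ℝ) ^ q * F.d ω (σ 0)⌋, Fam.pt F ω) := ⟨_, rfl⟩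
  have k1 := CH_fr (F := F) (A := A) (b := W) hF (by linarith : (0 : ℝ) ≤ D) hQ
  obtain ⟨p, hp'⟩ : ∃ p, p = Pool.Agent.H49.Ent.cond F.p A True := ⟨_, rfl⟩
  rw [← hp'] at hQ k1 ⊢
  rw [← hW]
  have hA : ∀ ω, 0 < p ω → A ω := fun ω hω => by
    rw [hp'] at hω
    exact of_eq_true ((cond_pos_iff F.isLaw.nonneg A True ω).1 hω).2
  have h0 := hQ.nonneg
  have hW' : ∀ ω ω', W ω = W ω' → ⌊(2 : ℝ) ^ q * F.d ω (σ 0)⌋ = ⌊(2 : ℝ) ^ q * F.d ω' (σ 0)⌋ ∧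
      Fam.pt F ω = Fam.pt F ω' := by
    intro ω ω' h
    rw [hW] at h
    exact Prod.ext_iff.mp h
  have hpt : ∀ ω ω', Fam.pt F ω = Fam.pt F ω' → F.X J ω = F.X J ω' ∧ F.W ω = F.W ω' ∧
      F.T ω = F.T ω' := by
    intro ω ω' h
    have h1 := Prod.ext_iff.mp h
    exact ⟨h1.1, h1.2, (Prod.ext_iff.mp h1.2).1⟩
  have hg : ∀ ω ω', 0 < p ω → 0 < p ω' → W ω = W ω' →
      gt F a' s' t' ω = gt F a' s' t' ω' := by
    intro ω ω' hω hω' h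
    obtain ⟨-, h2⟩ := hW' ω ω' h
    obtain ⟨g1, g2, g3⟩ := hfr ω ω' (hA ω hω) (hA ω' hω') h2
    change (F.T ω, (a' ω, s' ω, t' ω)) = (F.T ω', (a' ω', s' ω', t' ω'))
    rw [g1, g2, g3, (hpt ω ω' h2).2.2]
  have s1 : CH p (fun ω => (t ω, (s ω, a ω))) W ≤ 3 * Real.log (2 * D + 1) := by
    refine (CH_mono_cond h0 ?_).trans k1
    intro ω ω' hω hω' h
    exact Prod.ext h (hg ω ω' hω hω' h)
  have s2 : CH p (ctx F σ w q V H a s t) (fun ω => ((t ω, (s ω, a ω)), W ω)) ≤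
      2 * ((3 : ℕ) * Real.log (2 * ((3 : ℕ) * (D + D * D) *
        (2 * ((3 : ℕ) * (3 * B) + (3 * B)))) + 3)) := by
    have key := CH_ctx_of_pt (F := F) (σ := σ) (w := w) (r := q + w) (U := q + V + w)
      (P := q + (V + H) + w) (a := a) (s := s) (t := t) (α := a') (s₀ := s') (t₀ := t')
      (B := B) (D := D + D * D) hQ hw (by omega) (by omega) (by omega) (by omega) (by omega)
      (by omega) hB (by nlinarith) (fun ω hω => hb ω (hA ω hω))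
      (fun ω hω => (fnr_frg hF (hA ω hω)).symm (by linarith))
      (fun ω => ((t ω, (s ω, a ω)), W ω)) (by
        intro ω ω' hω hω' h
        have h1 := Prod.ext_iff.mp h
        have h2 := Prod.ext_iff.mp h1.1
        have h3 := Prod.ext_iff.mp h2.2
        obtain ⟨h4, h5⟩ := hW' ω ω' h1.2
        obtain ⟨x1, x2, x3⟩ := hpt ω ω' h5
        refine ⟨x1, x2, hfr ω ω' (hA ω hω) (hA ω' hω') h5, ⟨h3.2, h3.1, h2.1⟩, ?_, ?_, ?_⟩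
        · rw [Nat.add_sub_cancel]
          refine (near_of_floor h4).trans ?_
          exact div_le_div_of_nonneg_right hB (by positivity)
        · rw [Nat.add_sub_cancel]
          exact hu ω ω' (hA ω hω) (hA ω' hω') h5 h4
        · rw [Nat.add_sub_cancel]
          exact hN ω ω' (hA ω hω) (hA ω' hω') h5 h4)
    rw [ctx_cv] at key
    exact key
  have v1 : CH p (fun ω => (ctx F σ w q V H a s t ω, gt F a' s' t' ω)) W ≤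
      CH p (ctx F σ w q V H a s t) W := by
    refine CH_mono_left h0 ?_
    intro ω ω' hω hω' h
    have h1 := Prod.ext_iff.mp h
    exact Prod.ext h1.1 (hg ω ω' hω hω' h1.2)
  have v2 := CH_le_add h0 (ctx F σ w q V H a s t) (fun ω => (t ω, (s ω, a ω))) W
  linarith

/-- **(H4)** for theorem OC: the digits of the base velocity given the context, from the digits
given the exact point. -/
theorem h4f2 (hF : Frg F A w V H D a s t a' s' t') (hw : w ≤ J)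
    (hD : 1 ≤ D) (hQ : IsLaw (Pool.Agent.H49.Ent.cond F.p A True)) {B : ℝ} (hB : 1 ≤ B)
    (hb : ∀ ω, A ω → |a' ω| ≤ B ∧ |s' ω| ≤ B ∧ |t' ω| ≤ B) (hP : q + (V + H) + w ≤ J)
    (hfr : ∀ ω ω', A ω → A ω' → Fam.pt F ω = Fam.pt F ω' →
      a' ω = a' ω' ∧ s' ω = s' ω' ∧ t' ω = t' ω')
    (hu : ∀ ω ω', A ω → A ω' → Fam.pt F ω = Fam.pt F ω' →
      ⌊(2 : ℝ) ^ q * F.d ω (σ 0)⌋ = ⌊(2 : ℝ) ^ q * F.d ω' (σ 0)⌋ →
      |(F.d ω (σ 1) - a' ω * F.d ω (σ 0)) - (F.d ω' (σ 1) - a' ω * F.d ω' (σ 0))| ≤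
        B / 2 ^ (q + V))
    (hN : ∀ ω ω', A ω → A ω' → Fam.pt F ω = Fam.pt F ω' →
      ⌊(2 : ℝ) ^ q * F.d ω (σ 0)⌋ = ⌊(2 : ℝ) ^ q * F.d ω' (σ 0)⌋ →
      |(F.d ω (σ 2) - s' ω * F.d ω (σ 1) - t' ω * F.d ω (σ 0)) -
        (F.d ω' (σ 2) - s' ω * F.d ω' (σ 1) - t' ω * F.d ω' (σ 0))| ≤
        B / 2 ^ (q + (V + H))) :
    CH (Pool.Agent.H49.Ent.cond F.p A True) (fun ω => ⌊(2 : ℝ) ^ (q + X) * F.d ω (σ 0)⌋)
      (fun ω => (⌊(2 : ℝ) ^ q * F.d ω (σ 0)⌋, Fam.pt F ω)) ≤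
    CH (Pool.Agent.H49.Ent.cond F.p A True) (Uni.dg X (om F σ q V H X a s t 0))
      (fun ω => (ctx F σ w q V H a s t ω, gt F a' s' t' ω)) + (3 * Real.log (2 * D + 1) +
      2 * ((3 : ℕ) * Real.log (2 * ((3 : ℕ) * (D + D * D) *
        (2 * ((3 : ℕ) * (3 * B) + (3 * B)))) + 3))) := by
  have s5 := ctx_vis2 (F := F) (σ := σ) (q := q) hF hw hD hQ hB hb hP hfr hu hN
  obtain ⟨p, hp'⟩ : ∃ p, p = Pool.Agent.H49.Ent.cond F.p A True := ⟨_, rfl⟩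
  rw [← hp'] at hQ s5 ⊢
  have h0 := hQ.nonneg
  obtain ⟨W, hW⟩ : ∃ f : F.Ω → ℤ × ((Fin 3 → ℤ) × (ℕ × F.ζ)),
    f = fun ω => (⌊(2 : ℝ) ^ q * F.d ω (σ 0)⌋, Fam.pt F ω) := ⟨_, rfl⟩
  obtain ⟨O, hO⟩ : ∃ f, f = om F σ q V H X a s t 0 := ⟨_, rfl⟩
  obtain ⟨Cn, hCn⟩ : ∃ f, f = fun ω => (ctx F σ w q V H a s t ω, gt F a' s' t' ω) := ⟨_, rfl⟩
  rw [← hW, ← hCn] at s5 ⊢
  rw [← hO]
  have s7 : CH p (fun ω => ⌊(2 : ℝ) ^ (q + X) * F.d ω (σ 0)⌋) W ≤ CH p (Uni.dg X O) W := by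
    refine CH_mono_left h0 ?_
    intro ω ω' hω hω' h
    have h1 := Prod.ext_iff.mp h
    have h2 : W ω = W ω' := h1.2
    rw [hW] at h2
    have h2' := (Prod.ext_iff.mp h2).1
    have e1 : ∀ o, Uni.dg X O o = ⌊(2 : ℝ) ^ X * Int.fract ((2 : ℝ) ^ q * F.d o (σ 0))⌋ := by
      intro o
      rw [hO]
      rw [show Uni.dg X (om F σ q V H X a s t 0) o = (blk F σ w q V H X a s t o).2 0 from
        dg_om 0 o]
      change ⌊(2 : ℝ) ^ X * Int.fract ((2 : ℝ) ^ q *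
        mco (tfr σ (a o) (s o) (t o)) (F.d o) 0)⌋ = _
      rw [mco_tfr0]
    have h3 : Uni.dg X O ω = Uni.dg X O ω' := h1.1
    rw [e1, e1] at h3
    exact fract_lift h2' h3
  have s8 := CH_le_add h0 (Uni.dg X O) Cn W
  have s9 : CH p (Uni.dg X O) (fun ω => (Cn ω, W ω)) ≤ CH p (Uni.dg X O) Cn :=
    CH_mono_cond h0 fun ω ω' _ _ h => (Prod.ext_iff.mp h).1
  linarith

end fall

end Pool.FALL
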