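import Pool.Agent.H21.FALL.Vis
import Pool.Agent.H65.S6.Wf2
import Pool.Agent.H88.S6F.Pro
import Pool.Agent.H21.FALL.One

/-!
# Falling: the rows of the base position are full in all contexts

`VF`: a context with the frame of a window, near a frame which is a function of the exact point.
`wfe_mesh`: the rows of the base position are full in all such contexts, for all integer levels.
-/

set_option autoImplicit false

namespace Pool.FALL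

open Finset Real
open Pool.Agent.H49.Ent Pool.Agent.H32.Dense Pool.STK Pool.KA Pool.KA.Box Pool.KSAT Pool.K2S
  Pool.PB Pool.S6N Pool.S6C

/-- A context with the frame of a window, near a frame which is a function of the exact point. -/
structure VF {J : ℕ} (F : Fam 3 J) (A : F.Ω → Prop) (σ : Fin 3 → Fin 3) (w q V H : ℕ)
    (a s t a' s' t' : F.Ω → ℝ) (D B : ℝ) : Prop where
  frg : Frg F A w V H D a s t a' s' t'
  wJ : w ≤ J
  hP : q + (V + H) + w ≤ J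
  bd : ∀ ω, A ω → |a' ω| ≤ B ∧ |s' ω| ≤ B ∧ |t' ω| ≤ B
  fp : ∀ ω ω', A ω → A ω' → Fam.pt F ω = Fam.pt F ω' → a' ω = a' ω' ∧ s' ω = s' ω' ∧ t' ω = t' ω'
  hu : ∀ ω ω', A ω → A ω' → Fam.pt F ω = Fam.pt F ω' →
    ⌊(2 : ℝ) ^ q * F.d ω (σ 0)⌋ = ⌊(2 : ℝ) ^ q * F.d ω' (σ 0)⌋ →
    |(F.d ω (σ 1) - a' ω * F.d ω (σ 0)) - (F.d ω' (σ 1) - a' ω * F.d ω' (σ 0))| ≤
      B / 2 ^ (q + V)
  hN : ∀ ω ω', A ω → A ω' → Fam.pt F ω = Fam.pt F ω' →
    ⌊(2 : ℝ) ^ q * F.d ω (σ 0)⌋ = ⌊(2 : ℝ) ^ q * F.d ω' (σ 0)⌋ →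
    |(F.d ω (σ 2) - s' ω * F.d ω (σ 1) - t' ω * F.d ω (σ 0)) -
      (F.d ω' (σ 2) - s' ω * F.d ω' (σ 1) - t' ω * F.d ω' (σ 0))| ≤
      B / 2 ^ (q + (V + H))

theorem frg_sub {J : ℕ} {F : Fam 3 J} {A A' : F.Ω → Prop} {w V H : ℕ} {D : ℝ}
    {a s t a' s' t' : F.Ω → ℝ} (h : Frg F A w V H D a s t a' s' t') (hA : Sub A' A) :
    Frg F A' w V H D a s t a' s' t' :=
  ⟨h.fn, h.ga, h.gs, h.gt, fun ω hω => h.ca ω (hA ω hω), fun ω hω => h.cs ω (hA ω hω),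
    fun ω hω => h.ct ω (hA ω hω)⟩

theorem VF.sub {J : ℕ} {F : Fam 3 J} {A A' : F.Ω → Prop} {σ : Fin 3 → Fin 3} {w q V H : ℕ}
    {a s t a' s' t' : F.Ω → ℝ} {D B : ℝ} (h : VF F A σ w q V H a s t a' s' t' D B)
    (hA : Sub A' A) : VF F A' σ w q V H a s t a' s' t' D B :=
  ⟨frg_sub h.frg hA, h.wJ, h.hP, fun ω hω => h.bd ω (hA ω hω),
    fun ω ω' h1 h2 => h.fp ω ω' (hA ω h1) (hA ω' h2),
    fun ω ω' h1 h2 => h.hu ω ω' (hA ω h1) (hA ω' h2),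
    fun ω ω' h1 h2 => h.hN ω ω' (hA ω h1) (hA ω' h2)⟩

/-- The constant of visibility. -/
noncomputable def vC (D B : ℝ) : ℝ := 3 * Real.log (2 * D + 1) +
  2 * ((3 : ℕ) * Real.log (2 * ((3 : ℕ) * (D + D * D) *
    (2 * ((3 : ℕ) * (3 * B) + (3 * B)))) + 3))

theorem VF.vis {J : ℕ} {F : Fam 3 J} {A : F.Ω → Prop} {σ : Fin 3 → Fin 3} {w q V H : ℕ}
    {a s t a' s' t' : F.Ω → ℝ} {D B : ℝ} (h : VF F A σ w q V H a s t a' s' t' D B)
    (hD : 1 ≤ D) (hB : 1 ≤ B) (hQ : IsLaw (Pool.Agent.H49.Ent.cond F.p A True)) :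
    CH (Pool.Agent.H49.Ent.cond F.p A True)
      (fun ω => (ctx F σ w q V H a s t ω, gt F a' s' t' ω)) (ptq F (σ 0) q) ≤ vC D B := by
  have h1 := ctx_vis2 (F := F) (σ := σ) (q := q) h.frg h.wJ hD hQ hB h.bd h.hP h.fp h.hu h.hN
  refine le_trans (CH_mono_cond hQ.nonneg fun ω ω' _ _ e => ?_) h1
  have e1 := Prod.ext_iff.mp e
  exact Prod.ext e1.2 e1.1

/-- **(WFE)**, one family. -/
theorem wfe_fam {η : ℝ} (hη : 0 < η) : ∃ γ : ℝ, 0 < γ ∧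
    ∀ D B κ : ℝ, 1 ≤ D → 1 ≤ B → 0 < κ → ∃ τ > 0, ∃ J₁ : ℕ, ∀ J ≥ J₁, ∀ (F : Fam 3 J)
    (A : F.Ω → Prop),
    F.Tr → F.Tm (τ * J) → F.Rb (τ * J) → Real.exp (-(τ * J)) ≤ Pe F.p A →
    ∀ (σ : Fin 3 → Fin 3) (w q x1 V H : ℕ), (x1 : ℝ) ≤ γ * J →
    Stb F.p (κ * J) A (FrzG F (σ 0) q (q + x1)) → ¬ FrzG F (σ 0) q (q + x1) A →
    ∀ a s t a' s' t' : F.Ω → ℝ, VF F A σ w q V H a s t a' s' t' D B →
    ∀ n : ℕ, q + w + n ≤ J → n * Real.log 2 - η * J ≤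
      CH (Pool.Agent.H49.Ent.cond F.p A True) (fun ω => ⌊(2 : ℝ) ^ (q + w + n) * F.x ω (σ 0)⌋)
        (fun ω => (ctx F σ w q V H a s t ω, F.T ω)) := by
  obtain ⟨γ, hγ, hfull⟩ := Pool.S6K.Wfe.ws_cls (m := 3) hη
  refine ⟨γ, hγ, fun D B κ hD hB hκ => ?_⟩
  obtain ⟨τ, hτ, J₁, h1⟩ := hfull (vC D B) κ hκ
  refine ⟨τ, hτ, J₁, fun J hJ F A hTr hTm hRb hPA σ w q x1 V H hx1 hFs hFn a s t a' s' t' hC n
    hn => ?_⟩
  have hp0 := F.isLaw
  have key := h1 J hJ F A hTr hTm hRb hPA (σ 0) w q n x1 _ (ctx F σ w q V H a s t) hn hx1 hFs hFn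
    (fun ω ω' _ _ e => by
      have e1 := Prod.ext_iff.mp e
      have e2 := Prod.ext_iff.mp e1.2
      have e3 : slam F w ω = slam F w ω' := Prod.ext e1.1 (Prod.ext e2.2 e2.1)
      exact (ctx_slam (X := 0) (q := q) (σ := σ) hC.frg e3).1) (by
      intro B' hB' hB0
      have hl := isLaw_cond hp0 hB0
      refine le_trans (CH_mono_left hl.nonneg ?_) ((hC.sub hB').vis hD hB hl)
      intro ω ω' _ _ e
      exact (Prod.ext_iff.mp (Prod.ext_iff.mp e).1).1)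
  refine key.trans (CH_mono_cond (cond_nonneg hp0.nonneg A True) ?_)
  intro ω ω' _ _ e
  have a1 := Prod.ext_iff.mp e
  have a2 := Prod.ext_iff.mp a1.2
  have a3 := Prod.ext_iff.mp a2.2
  exact Prod.ext a3.1 a1.1

/-- **(WFE)** in the classes with events, at one level. -/
theorem wfe_clp {η : ℝ} (hη : 0 < η) : ∃ γ : ℝ, 0 < γ ∧
    ∀ (S : PCl 3) (a₁ R : ℝ), (∀ (τ : ℝ) (J : ℕ) (F : Fam 3 J) (A : F.Ω → Prop),
      S.St τ J F A → Fam.Stt F a₁ R τ A) →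
    ∀ (q x : ℕ → ℕ), (∀ J : ℕ, (x J : ℝ) ≤ γ * J) → ∀ (i₀ : Fin 3) (D B : ℝ), 1 ≤ D → 1 ≤ B →
    Clp S (fun J F A => ¬ FrzG F i₀ (q J) (q J + x J) A → ∀ (σ : Fin 3 → Fin 3) (w V H : ℕ)
      (a s t a' s' t' : F.Ω → ℝ), σ 0 = i₀ → VF F A σ w (q J) V H a s t a' s' t' D B →
      ∀ n : ℕ, q J + w + n ≤ J → n * Real.log 2 - η * J ≤
      CH (Pool.Agent.H49.Ent.cond F.p A True) (fun ω => ⌊(2 : ℝ) ^ (q J + w + n) * F.x ω (σ 0)⌋)
        (fun ω => (ctx F σ w (q J) V H a s t ω, F.T ω))) := by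
  obtain ⟨γ, hγ, h1⟩ := wfe_fam hη
  refine ⟨γ, hγ, fun S a₁ R hSt q x hx i₀ D B hD hB => ?_⟩
  refine Clp.one ⟨1, fun J F _ => FrzG F i₀ (q J) (q J + x J),
    fun J F _ => FrzG.hered F i₀ _ _⟩ fun κ hκ => ?_
  obtain ⟨τ, hτ, J₁, k1⟩ := h1 D B κ hD hB hκ
  refine ⟨τ, hτ, J₁, fun J hJ F A hS hSb hnF σ w V H a s t a' s' t' hσ hC n hn => ?_⟩
  obtain ⟨c1, c2, c3, c4⟩ := hSt τ J F A hS
  subst hσ
  exact k1 J hJ F A c1 c2.1 c3 c4 σ w (q J) (x J) V H (hx J) (hSb 0) hnF a s t a' s' t' hC n hn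

/-- **(WFE)** The rows of the base position are full in all contexts, for all integer levels. -/
theorem wfe_mesh {S : PCl 3} {a₁ R : ℝ} {i₀ : Fin 3} {act : ℚ → ℝ}
    (hSt : ∀ (τ : ℝ) (J : ℕ) (F : Fam 3 J) (A : F.Ω → Prop), S.St τ J F A → Fam.Stt F a₁ R τ A)
    (hact : ActN S i₀ act) {q₁ q₂ ca η : ℝ} (hq₂ : q₂ + η ≤ 1) (hca : 0 < ca)
    (hη : 0 < η) (hG : Pool.UST.ActG act q₁ (q₂ + η) ca (ca * η / 8)) {D B : ℝ} (hD : 1 ≤ D)
    (hB : 1 ≤ B) :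
    Clp S (fun J F A => ∀ (σ : Fin 3 → Fin 3) (w V H : ℕ) (a s t a' s' t' : F.Ω → ℝ),
      σ 0 = i₀ → ∀ q X' : ℕ, (∀ q' : ℕ, q ≤ q' → (q' : ℝ) ≤ q + η * J →
        VF F A σ w q' V H a s t a' s' t' D B) → q₁ * J ≤ q → (q : ℝ) + X' ≤ q₂ * J →
      q + w + X' ≤ J → X' * Real.log 2 - η * J ≤ CH (Pool.Agent.H49.Ent.cond F.p A True)
        (fun ω => ⌊(2 : ℝ) ^ (q + w + X') * F.x ω (σ 0)⌋)
        (fun ω => (ctx F σ w q V H a s t ω, F.T ω))) := by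
  classical
  obtain ⟨γ, hγ, hwfe⟩ := wfe_clp (η := η / 4) (by positivity)
  obtain ⟨u, hu⟩ : ∃ u, u = Real.log 2 := ⟨_, rfl⟩
  have hu0 : 0 < u := by rw [hu]; exact Real.log_pos (by norm_num)
  have hu1 : u < 1 := by
    rw [hu]
    have := Real.log_two_lt_d9
    linarith only [this]
  -- the mesh
  obtain ⟨N, hN⟩ := exists_nat_ge (max (1 / γ) (16 / η))
  have hN1 : 1 / γ ≤ N := (le_max_left _ _).trans hN
  have hN2 : 16 / η ≤ N := (le_max_right _ _).trans hN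
  have hN0 : (0 : ℝ) < N := lt_of_lt_of_le (by positivity) hN1
  obtain ⟨m, hm⟩ : ∃ m, m = ⌊η * N / 4⌋₊ := ⟨_, rfl⟩
  have hmu : (m : ℝ) ≤ η * N / 4 := by rw [hm]; exact Nat.floor_le (by positivity)
  have hml : η * N / 4 - 1 < m := by
    rw [hm]
    have := Nat.lt_floor_add_one (η * N / 4)
    linarith only [this]
  have hηN : 16 ≤ η * N := by
    rw [div_le_iff₀ hη] at hN2
    linarith only [hN2]
  have hm3 : 3 * (η * N) / 16 ≤ m := by linarith only [hml, hηN]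
  have hm0 : (0 : ℝ) < m := by linarith only [hu0, hu1, hml, hηN]
  obtain ⟨c₀, hc₀⟩ : ∃ c₀, c₀ = ca * η / (32 * m) := ⟨_, rfl⟩
  have hc₀0 : 0 < c₀ := by rw [hc₀]; positivity
  have hc : m * c₀ < ca * (m / N) - ca * η / 8 := by
    have e1 : m * c₀ = ca * η / 32 := by rw [hc₀]; field_simp
    have e2 : 3 * η / 16 ≤ (m : ℝ) / N := by
      rw [le_div_iff₀ hN0]
      linarith only [hml, hηN]
    have e3 := mul_le_mul_of_nonneg_left e2 hca.le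
    have e4 : 0 < ca * η := by positivity
    rw [e1]
    linarith only [e3, e4]
  -- the statements at the mesh
  obtain ⟨xJ, hxJ⟩ : ∃ xJ : ℕ → ℕ, xJ = fun J : ℕ => ⌊((J : ℕ) : ℝ) / N⌋₊ := ⟨_, rfl⟩
  have hx : ∀ J : ℕ, (xJ J : ℝ) ≤ γ * J := by
    intro J
    have e1 : (xJ J : ℝ) ≤ (J : ℝ) / N := by rw [hxJ]; exact Nat.floor_le (by positivity)
    have e2 : 1 / (N : ℝ) ≤ γ := by
      rw [div_le_iff₀ hγ] at hN1
      rw [div_le_iff₀ hN0]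
      linarith only [hN1]
    have e3 : (J : ℝ) / N = 1 / N * J := by ring
    rw [e3] at e1
    exact e1.trans (mul_le_mul_of_nonneg_right e2 (Nat.cast_nonneg _))
  obtain ⟨qJ, hqJ⟩ : ∃ qJ : ℕ → ℕ → ℕ, qJ = fun k J : ℕ =>
      ⌊((((k : ℕ) : ℚ) / N : ℚ) : ℝ) * ((J : ℕ) : ℝ)⌋₊ :=
    ⟨_, rfl⟩
  have W := Clp.finite (S := S) (ι := Fin (N + 1)) (fun i =>
    hwfe S a₁ R hSt (qJ i) xJ hx i₀ D B hD hB)
  have T := Clp.finite (S := S) (ι := Fin (N + 1)) (fun i =>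
    hact (((i : ℕ) : ℚ) / N) (by positivity) (by
      have h1 : ((i : ℕ) : ℚ) ≤ N := by exact_mod_cast Nat.lt_succ_iff.1 i.2
      have h2 : (0 : ℚ) < N := by exact_mod_cast hN0
      rw [div_le_one h2]
      exact h1) (c₀ * u / 4) (by positivity))
  have P : Clp S (fun J F A => 0 < Pe F.p A) := Clp.of one_pos 0 (fun J _ F A hS => by
    obtain ⟨c1, c2, c3, c4⟩ := hSt 1 J F A hS
    exact lt_of_lt_of_le (Real.exp_pos _) c4)
  obtain ⟨J₂, hJ₂⟩ := exists_nat_ge (max 1 (max (4 * Real.log 13 / (c₀ * u)) (8 / η)))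
  refine Clp.mono (J₂ := J₂) ((W.and T).and P) ?_
  rintro J hJ F A ⟨⟨hW, hT⟩, hpA⟩ σ w V H a s t a' s' t' hσ q X' hVF h3 h4 h5
  have hJr : (J₂ : ℝ) ≤ J := by exact_mod_cast hJ
  have j1 : (1 : ℝ) ≤ J := (le_max_left _ _).trans (hJ₂.trans hJr)
  have j2 : 4 * Real.log 13 / (c₀ * u) ≤ J :=
    ((le_max_left _ _).trans (le_max_right _ _)).trans (hJ₂.trans hJr)
  have j4 : 8 / η ≤ J := ((le_max_right _ _).trans (le_max_right _ _)).trans (hJ₂.trans hJr)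
  have hJ0 : (0 : ℝ) < J := by linarith only [hu0, hu1, j1]
  rw [div_le_iff₀ (by positivity)] at j2 j4
  have hl := isLaw_cond F.isLaw hpA
  have h0 := hl.nonneg
  have hηJ : 0 < η * J := by positivity
  rw [← hu]
  by_cases hX : (X' : ℝ) ≤ η / 2 * J
  · refine le_trans ?_ (CH_nonneg h0 _ _)
    have : (X' : ℝ) * u ≤ X' * 1 := mul_le_mul_of_nonneg_left hu1.le (Nat.cast_nonneg _)
    linarith only [hu0, hu1, j4, hX, this]
  have hX := not_le.1 hX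
  -- the mesh point
  obtain ⟨k₀, hk₀⟩ : ∃ k₀, k₀ = ⌈(q : ℝ) * N / J⌉₊ := ⟨_, rfl⟩
  have u1 : (q : ℝ) * N / J ≤ k₀ := by rw [hk₀]; exact Nat.le_ceil _
  have u2 : (k₀ : ℝ) < q * N / J + 1 := by rw [hk₀]; exact Nat.ceil_lt_add_one (by positivity)
  have hq2J : (q : ℝ) ≤ q₂ * J := by
    have : (0 : ℝ) ≤ X' := Nat.cast_nonneg _
    linarith
  have v1 : (q : ℝ) / J ≤ (k₀ : ℝ) / N := by
    rw [div_le_div_iff₀ hJ0 hN0]
    rw [div_le_iff₀ hJ0] at u1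
    exact u1
  have v2 : (k₀ : ℝ) / N ≤ q / J + 1 / N := by
    rw [div_add_div _ _ (ne_of_gt hJ0) (ne_of_gt hN0), div_le_div_iff₀ hN0 (by positivity)]
    have e1 : (q : ℝ) * N / J * J = q * N := by field_simp
    have e2 := mul_le_mul_of_nonneg_right u2.le hJ0.le
    have e3 : (q * N / J + 1) * (J : ℝ) = q * N + J := by rw [add_mul, e1]; ring
    rw [e3] at e2
    have e4 := mul_le_mul_of_nonneg_right e2 hN0.le
    calc (k₀ : ℝ) * (J * N) = k₀ * J * N := by ring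
      _ ≤ (q * N + J) * N := e4
      _ = (q * N + J * 1) * N := by ring
  have v3 : (1 : ℝ) / N ≤ η / 16 := by
    rw [div_le_div_iff₀ hN0 (by norm_num)]
    linarith only [hηN]
  have v4 : (m : ℝ) / N ≤ η / 4 := by
    rw [div_le_div_iff₀ hN0 (by norm_num)]
    linarith only [hmu]
  have v5 : (q : ℝ) / J ≤ q₂ := by rw [div_le_iff₀ hJ0]; exact hq2J
  have v6 : q₁ ≤ (q : ℝ) / J := by rw [le_div_iff₀ hJ0]; exact h3
  have cst1 : ((((k₀ : ℕ) : ℚ) / N : ℚ) : ℝ) = (k₀ : ℝ) / N := by push_cast; ring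
  have cst2 : ((((k₀ + m : ℕ) : ℚ) / N : ℚ) : ℝ) = (k₀ : ℝ) / N + m / N := by push_cast; ring
  obtain ⟨i, hi, hci⟩ := Pool.UST.Wf2.pick hG (N := N) (m := m) (k₀ := k₀)
    (by rw [cst1]; linarith only [v1, v6]) (by rw [cst2]; linarith only [hη, v2, v3, v4, v5]) hc
  have hkN : k₀ + i + 1 ≤ N := by
    have e1 : (k₀ : ℝ) / N + m / N ≤ 1 := by linarith only [hq₂, hη, v2, v3, v4, v5]
    rw [← add_div, div_le_one hN0] at e1
    have e2 : k₀ + m ≤ N := by exact_mod_cast e1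
    omega
  have cst3 : ((((k₀ + i : ℕ) : ℚ) / N : ℚ) : ℝ) = ((k₀ : ℝ) + i) / N := by push_cast; ring
  have cst4 : ((((k₀ + i + 1 : ℕ) : ℚ) / N : ℚ) : ℝ) = ((k₀ : ℝ) + i) / N + 1 / N := by
    push_cast
    ring
  obtain ⟨qb, hqb⟩ : ∃ qb, qb = qJ (k₀ + i) J := ⟨_, rfl⟩
  have hqb' : qb = ⌊((k₀ : ℝ) + i) / N * J⌋₊ := by rw [hqb, hqJ]; simp only; rw [cst3]
  have hi' : ((i : ℕ) : ℝ) / N ≤ m / N :=
    div_le_div_of_nonneg_right (by exact_mod_cast hi.le) hN0.le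
  have w1 : q ≤ qb := by
    rw [hqb']
    refine Nat.le_floor ?_
    have e1 : (k₀ : ℝ) / N ≤ (k₀ + i) / N := by
      refine div_le_div_of_nonneg_right ?_ hN0.le
      have : (0 : ℝ) ≤ i := Nat.cast_nonneg _
      linarith only
    have e2 := mul_le_mul_of_nonneg_right (v1.trans e1) hJ0.le
    have e3 : (q : ℝ) / J * J = q := by field_simp
    rw [e3] at e2
    exact e2
  have w2 : (qb : ℝ) ≤ q + η / 2 * J := by
    have e1 : (qb : ℝ) ≤ ((k₀ : ℝ) + i) / N * J := by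
      rw [hqb']
      exact Nat.floor_le (by positivity)
    have e2 : ((k₀ : ℝ) + i) / N ≤ q / J + η / 2 := by
      rw [add_div]
      linarith only [hη, v2, v3, v4, hi']
    have e3 := mul_le_mul_of_nonneg_right e2 hJ0.le
    have e4 : ((q : ℝ) / J + η / 2) * J = q + η / 2 * J := by field_simp
    linarith only [e1, e3, e4]
  -- the velocity is not frozen
  have hnF : ¬ FrzG F i₀ (qJ (k₀ + i) J) (qJ (k₀ + i) J + xJ J) A := by
    rw [← hqb]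
    intro hF
    obtain ⟨K, hK⟩ : ∃ K, K = ⌊((((k₀ + i + 1 : ℕ) : ℚ) / N : ℚ) : ℝ) * J⌋₊ := ⟨_, rfl⟩
    have c0 : K ≤ qb + xJ J + 1 := by
      rw [hK, cst4, hqb', hxJ]
      have e1 := Nat.lt_floor_add_one (((k₀ : ℝ) + i) / N * J)
      have e2 := Nat.lt_floor_add_one ((J : ℝ) / N)
      have e3 : (((k₀ : ℝ) + i) / N + 1 / N) * J = ((k₀ : ℝ) + i) / N * J + J / N := by ring
      rw [e3]
      have e4 := Nat.floor_le (by positivity : 0 ≤ ((k₀ : ℝ) + i) / N * J + J / N)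
      have e5 : ((⌊((k₀ : ℝ) + i) / N * J + J / N⌋₊ : ℕ) : ℝ) <
          ((⌊((k₀ : ℝ) + i) / N * J⌋₊ + ⌊(J : ℝ) / N⌋₊ + 1 + 1 : ℕ) : ℝ) := by
        push_cast
        linarith only [e1, e2, e4]
      have e6 := Nat.cast_lt.1 e5
      simp only
      omega
    have c1 := Pool.UST.Wf2.frz_le hl c0 hF
    have c2 := hT ⟨k₀ + i, by omega⟩
    have c3 := hT ⟨k₀ + i + 1, by omega⟩
    simp only at c2 c3
    rw [← hK] at c3
    have hqb2 : qb = ⌊((((k₀ + i : ℕ) : ℚ) / N : ℚ) : ℝ) * J⌋₊ := by rw [hqb, hqJ]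
    rw [← hqb2] at c2
    rw [← hu] at c2 c3
    have c4 := (abs_le.1 c2).2
    have c5 := (abs_le.1 c3).1
    have c6 := mul_le_mul_of_nonneg_right (mul_le_mul_of_nonneg_right hci hu0.le) hJ0.le
    have c7 : 0 < c₀ * u * J := by positivity
    linarith only [j2, c1, c4, c5, c6, c7]
  have vok := hVF qb w1 (by linarith only [hu0, hu1, j4, w2])
  rw [hqb] at vok
  obtain ⟨n', hn'⟩ : ∃ n', q + X' = qb + n' := by
    have e : (qb : ℝ) ≤ ((q + X' : ℕ) : ℝ) := by push_cast; linarith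
    have e2 : qb ≤ q + X' := Nat.cast_le.1 e
    exact ⟨q + X' - qb, by omega⟩
  have key := hW ⟨k₀ + i, by omega⟩ hnF σ w V H a s t a' s' t' hσ vok n' (by
    simp only
    rw [← hqb]
    omega)
  simp only at key
  rw [← hqb] at key
  have e0 : qb + w + n' = q + w + X' := by omega
  rw [e0] at key
  have key2 : CH (Pool.Agent.H49.Ent.cond F.p A True)
      (fun ω => ⌊(2 : ℝ) ^ (q + w + X') * F.x ω (σ 0)⌋)
      (fun ω => (ctx F σ w qb V H a s t ω, F.T ω)) ≤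
      CH (Pool.Agent.H49.Ent.cond F.p A True)
      (fun ω => ⌊(2 : ℝ) ^ (q + w + X') * F.x ω (σ 0)⌋)
      (fun ω => (ctx F σ w q V H a s t ω, F.T ω)) :=
    CH_mono_cond h0 (fun ω ω' _ _ e => by
      have e1 := Prod.ext_iff.mp e
      exact Prod.ext (ctx_next' (X := 0) w1 e1.1).1 e1.2)
  have e7 : (n' : ℝ) * Real.log 2 - η / 4 * J ≥ X' * u - (η / 2 * J) * u - η / 4 * J := by
    rw [← hu]
    have e1 : (n' : ℝ) = q + X' - qb := by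
      have : ((q + X' : ℕ) : ℝ) = ((qb + n' : ℕ) : ℝ) := by rw [hn']
      push_cast at this
      linarith only [this]
    rw [e1]
    have : ((q : ℝ) - qb) * u ≥ -(η / 2 * J) * u := mul_le_mul_of_nonneg_right (by linarith only [w2]) hu0.le
    nlinarith only [this]
  have e8 : (η / 2 * J) * u ≤ η / 2 * J := by
    have : 0 ≤ η / 2 * J := by positivity
    nlinarith only [hu0, hu1, j4]
  linarith only [hu0, hu1, j4, key, key2, e7, e8]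

section ffr

variable {J : ℕ} {F : Fam 3 J} {A : F.Ω → Prop} {σ : Fin 3 → Fin 3} {N w₀ Δ r V₀ H X Va Rt Pu PN : ℕ}
  {a t : ℕ → F.Ω → ℝ} {s a' t' al nu kk bb : F.Ω → ℝ}

/-- The frames of the falling case. -/
theorem frg_ffr (h : FFr F A σ N w₀ Δ r V₀ H X Va Rt Pu PN a t s a' t' al nu kk bb) {i : ℕ}
    (hi : i ≤ N) : Frg F A (fw w₀ Δ i) (fv V₀ r i) H 4 (a i) s (t i) a' s t' := by
  refine ⟨h.fn i hi, h.ga i hi, Or.inl fun _ => rfl, h.gti i hi, h.ca i hi, ?_, ?_⟩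
  · intro ω _
    rw [sub_self, abs_zero]
    positivity
  · intro ω hω
    rw [sub_self, zero_mul, add_zero]
    exact h.ct i hi ω hω

theorem fvle {V₀ r i N : ℕ} (h : i ≤ N) : fv V₀ r i ≤ fv V₀ r N := by
  unfold fv
  have := Nat.mul_le_mul_right r h
  omega

theorem fwle {w₀ Δ i N : ℕ} (h : i ≤ N) : fw w₀ Δ i ≤ fw w₀ Δ N := by
  unfold fw
  have := Nat.mul_le_mul_right Δ h
  omega

/-- The contexts of the falling case are visible. -/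
theorem vf_ffr (h : FFr F A σ N w₀ Δ r V₀ H X Va Rt Pu PN a t s a' t' al nu kk bb) {i q : ℕ}
    (hi : i ≤ N) (h1 : q + fv V₀ r N ≤ Pu) (h2 : q + (fv V₀ r N + H) ≤ PN)
    (h3 : q + (fv V₀ r N + H) + fw w₀ Δ N ≤ J) :
    VF F A σ (fw w₀ Δ i) q (fv V₀ r i) H (a i) s (t i) a' s t' 4 10 := by
  have hv := fvle (V₀ := V₀) (r := r) hi
  have hw := fwle (w₀ := w₀) (Δ := Δ) hi
  have key : ∀ (x x' n n' : ℝ) (M M' m : ℕ), |x| ≤ 4 / 2 ^ M → |x'| ≤ 1 / 2 ^ q →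
      |n| ≤ 1 / 2 ^ M' → |n'| ≤ 1 / 2 ^ M' → q + m ≤ M' → m ≤ M →
      |x * x' + n - n'| ≤ 10 / 2 ^ (q + m) := by
    intro x x' n n' M M' m hx hx' hn hn' hM' hM
    have e1 : |x * x'| ≤ 4 / 2 ^ (q + m) := by
      rw [abs_mul]
      calc |x| * |x'| ≤ 4 / 2 ^ M * (1 / 2 ^ q) :=
            mul_le_mul hx hx' (abs_nonneg _) (by positivity)
        _ = 4 / 2 ^ (q + M) := by rw [pow_add]; field_simp
        _ ≤ 4 / 2 ^ (q + m) := div_pow_mono (by norm_num) (by omega)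
    have e2 : (1 : ℝ) / 2 ^ M' ≤ 1 / 2 ^ (q + m) := div_pow_mono (by norm_num) hM'
    have e3 : (10 : ℝ) / 2 ^ (q + m) = 4 / 2 ^ (q + m) + 1 / 2 ^ (q + m) + 1 / 2 ^ (q + m) +
        4 / 2 ^ (q + m) := by ring
    have e4 : (0 : ℝ) ≤ 4 / 2 ^ (q + m) := by positivity
    rw [e3]
    rw [abs_le] at e1 hn hn' ⊢
    constructor <;> linarith only [hn, hn', e1, e2, e1.1, e1.2, hn.1, hn.2, hn'.1, hn'.2]
  refine ⟨frg_ffr h hi, by omega, by omega, ?_, ?_, ?_, ?_⟩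
  · intro ω hω
    obtain ⟨b1, b2, b3⟩ := h.bd ω hω
    have h2 : (1 : ℝ) / 2 ^ (H + X) ≤ 1 := div_le_one_of_le₀ (one_le_pow₀ (by norm_num))
      (by positivity)
    exact ⟨by linarith only [b1], by linarith only [b2], by linarith only [b3, h2]⟩
  · intro ω ω' hω hω' e
    obtain ⟨b1, b2, b3, -⟩ := h.fp ω ω' hω hω' e
    exact ⟨b1, b2, b3⟩
  · intro ω ω' hω hω' e ed
    obtain ⟨b1, b2, b3, b4, b5, b6, b7⟩ := h.fp ω ω' hω hω' e
    have o1 := h.on1 ω hω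
    have o2 := h.on1 ω' hω'
    rw [← b4, ← b5] at o2
    have n1 := h.an1 ω hω
    have d1 : |F.d ω (σ 0) - F.d ω' (σ 0)| ≤ 1 / 2 ^ q := near_of_floor ed
    have k := key _ _ _ _ _ _ (fv V₀ r i) n1 d1 o1 o2 (by omega) hv
    have e2 : (F.d ω (σ 1) - a' ω * F.d ω (σ 0)) - (F.d ω' (σ 1) - a' ω * F.d ω' (σ 0)) =
        (al ω - a' ω) * (F.d ω (σ 0) - F.d ω' (σ 0)) +
          (F.d ω (σ 1) - al ω * F.d ω (σ 0) - nu ω) -
          (F.d ω' (σ 1) - al ω * F.d ω' (σ 0) - nu ω) := by ring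
    rw [e2]
    exact k
  · intro ω ω' hω hω' e ed
    obtain ⟨b1, b2, b3, b4, b5, b6, b7⟩ := h.fp ω ω' hω hω' e
    have o1 := h.on2 ω hω
    have o2 := h.on2 ω' hω'
    rw [← b2, ← b6, ← b7] at o2
    have n1 := h.an2 ω hω
    have d1 : |F.d ω (σ 0) - F.d ω' (σ 0)| ≤ 1 / 2 ^ q := near_of_floor ed
    have k := key _ _ _ _ _ _ (fv V₀ r i + H) n1 d1 o1 o2 (by omega) (by omega)
    have e2 : (F.d ω (σ 2) - s ω * F.d ω (σ 1) - t' ω * F.d ω (σ 0)) -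
        (F.d ω' (σ 2) - s ω * F.d ω' (σ 1) - t' ω * F.d ω' (σ 0)) =
        (kk ω - t' ω) * (F.d ω (σ 0) - F.d ω' (σ 0)) +
          (F.d ω (σ 2) - s ω * F.d ω (σ 1) - kk ω * F.d ω (σ 0) - bb ω) -
          (F.d ω' (σ 2) - s ω * F.d ω' (σ 1) - kk ω * F.d ω' (σ 0) - bb ω) := by ring
    rw [e2]
    exact k

end ffr

/-- **(WFE)** for the contexts of the falling case. -/
theorem wfe_fall {S : PCl 3} {a₁ R : ℝ} {i₀ : Fin 3} {act : ℚ → ℝ}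
    (hSt : ∀ (τ : ℝ) (J : ℕ) (F : Fam 3 J) (A : F.Ω → Prop), S.St τ J F A → Fam.Stt F a₁ R τ A)
    (hact : ActN S i₀ act) {σ : ℝ → Row} {v₁ t₁ : ℚ} {e₁ P g wr v₀ v ρ a₀ α L e G η : ℝ}
    (hZ : Zof σ act v₁ t₁ e₁ P g wr v₀ v ρ a₀ α L e G) (hη : 0 < η) (hηe : 16 * e ≤ α * η) :
    Clp S (fun J F A => ∀ (N w₀ Δ r V₀ H X Va Rt Pu PN : ℕ) (sg : Fin 3 → Fin 3)
      (a t : ℕ → F.Ω → ℝ) (s a' t' al nu kk bb : F.Ω → ℝ), sg 0 = i₀ →
      FFr F A sg N w₀ Δ r V₀ H X Va Rt Pu PN a t s a' t' al nu kk bb → ∀ i ≤ N, ∀ q X' : ℕ,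
      (P - g - L) * J ≤ q → (q : ℝ) + X' + η * J ≤ (P - g + L) * J →
      (q : ℝ) + fv V₀ r N + η * J ≤ Pu → (q : ℝ) + fv V₀ r N + H + η * J ≤ PN →
      (q : ℝ) + fv V₀ r N + H + fw w₀ Δ N + η * J ≤ J → q + fw w₀ Δ i + X' ≤ J →
      X' * Real.log 2 - η * J ≤ CH (Pool.Agent.H49.Ent.cond F.p A True)
        (fun ω => ⌊(2 : ℝ) ^ (q + fw w₀ Δ i + X') * F.x ω (sg 0)⌋)
        (fun ω => (ctx F sg (fw w₀ Δ i) q (fv V₀ r i) H (a i) s (t i) ω, F.T ω))) := by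
  have hv : 0 < v := hZ.ρ0.trans hZ.vρ
  have hL : 0 < L := by
    have := hZ.eL
    have := hZ.e0
    linarith
  have hLG := hZ.LG
  have hLG' : L ≤ G := by nlinarith only [hL, hLG, hv]
  have hG : Pool.UST.ActG act (P - g - L) (P - g + L - η + η) α (α * η / 8) := by
    intro q q' h1 h2 h3
    have h2' : (q : ℝ) ≤ q' := by exact_mod_cast h2
    have a1 := hZ.act q (by rw [abs_le]; constructor <;> linarith)
    have a2 := hZ.act q' (by rw [abs_le]; constructor <;> linarith)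
    rw [abs_le] at a1 a2
    have e1 : α * ((q' : ℝ) - q) = α * (q' - (P - g)) - α * (q - (P - g)) := by ring
    rw [e1]
    linarith only [hηe, a1, a2, a1.1, a1.2, a2.1, a2.2]
  have key := wfe_mesh hSt hact (q₁ := P - g - L) (q₂ := P - g + L - η) (ca := α) (η := η)
    (by
      have := hZ.g2
      have := hZ.g10
      linarith) hZ.α0 hη hG (D := 4) (B := 10) (by norm_num) (by norm_num)
  refine Clp.mono (J₂ := 0) key ?_
  intro J _ F A hk N w₀ Δ r V₀ H X Va Rt Pu PN sg a t s a' t' al nu kk bb h0 hF i hi q X' h1 h2 h3 h4 h5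
    h6
  refine hk sg (fw w₀ Δ i) (fv V₀ r i) H (a i) s (t i) a' s t' h0 q X' ?_ h1 (by linarith only [h2]) h6
  intro q' hq1 hq2
  refine vf_ffr hF hi ?_ ?_ ?_
  · have : ((q' + fv V₀ r N : ℕ) : ℝ) ≤ Pu := by push_cast; linarith only [h3, hq2]
    exact_mod_cast this
  · have : ((q' + (fv V₀ r N + H) : ℕ) : ℝ) ≤ PN := by push_cast; linarith only [h4, hq2]
    exact_mod_cast this
  · have : ((q' + (fv V₀ r N + H) + fw w₀ Δ N : ℕ) : ℝ) ≤ J := by push_cast; linarith only [h5, hq2]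
    exact_mod_cast this

/-- **(WFE)**, as stated by helper88. -/
theorem wfe_f : WfeFStmt := by
  intro S a₁ R h₁ i₀ c s₂ r' D σ hC act v₁ t₁ e₁ P g wr v₀ v ρ a₀ α L e G hact _ hZ N ul us ι x hι
    hx hxL hxe
  have hv : 0 < v := hZ.ρ0.trans hZ.vρ
  have hL : 0 < L := by
    have := hZ.eL
    have := hZ.e0
    linarith
  have hLG := hZ.LG
  have hvL : 0 < v * L := by positivity
  have hρL : 0 < ρ * L := mul_pos hZ.ρ0 hL
  have hρvL : ρ * L ≤ v * L := mul_le_mul_of_nonneg_right hZ.vρ.le hL.le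
  have hLG' : 10 * L + 4 * (v * L) ≤ G := by linarith only [hLG]
  have hιx : 0 < ι * x := by positivity
  have key := wfe_fall hC.st hact hZ hιx (by linarith only [hxe])
  obtain ⟨J₂, hJ₂⟩ := exists_nat_ge (1 / L)
  refine Clp.mono (J₂ := J₂) key ?_
  intro J hJ F A hk w₀ Δ r V₀ H X Va Rt sg a t s a' t' al nu kk bb h0 hLv hX hF i hi q hq
  have hJr : (J₂ : ℝ) ≤ J := by exact_mod_cast hJ
  have hLJ : 1 ≤ L * J := by
    have := hJ₂.trans hJr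
    rw [div_le_iff₀ hL] at this
    linarith only [this]
  have hJ0 : (0 : ℝ) ≤ J := Nat.cast_nonneg J
  have heJ : 0 ≤ e * J := mul_nonneg hZ.e0.le hJ0
  have hvLJ : 0 ≤ v * L * J := mul_nonneg hvL.le hJ0
  have hρLJ : 0 ≤ ρ * L * J := mul_nonneg hρL.le hJ0
  have hρvLJ : ρ * L * J ≤ v * L * J := mul_le_mul_of_nonneg_right hρvL hJ0
  obtain ⟨q1, q2⟩ := abs_le.1 hq
  have z1 := hLv.zu
  have z2 : (w₀ : ℝ) ≤ (wr + L / 2) * J := by
    have : (w₀ : ℝ) ≤ ((w₀ + N * Δ : ℕ) : ℝ) := by exact_mod_cast Nat.le_add_right _ _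
    linarith only [z1, this]
  have f1 : ((fv V₀ r N : ℕ) : ℝ) ≤ v₀ * J + v * L / 2 * J := by
    have h1 := hLv.va
    have h2 : ((fv V₀ r N : ℕ) : ℝ) = ((V₀ + N * r : ℕ) : ℝ) := rfl
    have h3 : v * ((w₀ : ℝ) - wr * J) ≤ v * (L / 2 * J) :=
      mul_le_mul_of_nonneg_left (by linarith only [z2]) hv.le
    rw [h2]
    linarith only [heJ, h1, h3]
  have f2 : ((fv V₀ r N : ℕ) : ℝ) + H ≤ (g - wr) * J + ρ * L / 2 * J := by
    have h1 := hLv.rt N le_rfl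
    have h2 : ((fv V₀ r N : ℕ) : ℝ) + H = ((V₀ + N * r + H : ℕ) : ℝ) := by
      unfold fv
      push_cast
      ring
    have h3 : ρ * ((((w₀ + N * Δ : ℕ) : ℝ)) - wr * J) ≤ ρ * (L / 2 * J) :=
      mul_le_mul_of_nonneg_left (by linarith only [z1]) hZ.ρ0.le
    rw [h2]
    linarith only [heJ, h1, h3]
  have f3 : ((fw w₀ Δ N : ℕ) : ℝ) ≤ (wr + L / 2) * J := by
    have h2 : ((fw w₀ Δ N : ℕ) : ℝ) = ((w₀ + N * Δ : ℕ) : ℝ) := rfl
    rw [h2]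
    exact z1
  have x1 : 2 * (x * J) + ι * x * J ≤ L / 4 * J := by
    have := mul_le_mul_of_nonneg_right hxL hJ0
    linarith only [this]
  have hxJ : 0 ≤ x * J := mul_nonneg hx.le hJ0
  have hιJ : 0 ≤ ι * x * J := mul_nonneg hιx.le hJ0
  have G1 : 10 * (L * J) + 4 * (v * L * J) ≤ G * J := by
    have := mul_le_mul_of_nonneg_right hLG' hJ0
    linarith only [this]
  have c1 : (fPu P g v₀ G J : ℝ) ≥ ((P - g) + v₀ + G / 2) * J - 1 := by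
    have := Nat.lt_floor_add_one (((P - g) + v₀ + G / 2) * (J : ℝ))
    unfold fPu
    linarith only [this]
  have c2 : (fPN P wr G J : ℝ) ≥ (P - wr + G / 2) * J - 1 := by
    have := Nat.lt_floor_add_one ((P - wr + G / 2) * (J : ℝ))
    unfold fPN
    linarith only [this]
  have g7 : (P + G) * J ≤ 1 * J := mul_le_mul_of_nonneg_right hZ.g7.le hJ0
  have g11 : G * J ≤ (g - wr - v₀) * J := mul_le_mul_of_nonneg_right hZ.g11.le hJ0
  have g10 : G * J ≤ v₀ * J := mul_le_mul_of_nonneg_right hZ.g10.le hJ0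
  have hGJ : 0 ≤ G * J := by linarith only [hLJ, hvLJ, G1]
  refine hk N w₀ Δ r V₀ H X Va Rt _ _ sg a t s a' t' al nu kk bb h0 hF i hi q X ?_ ?_ ?_ ?_ ?_ ?_
  · linarith only [hLJ, q1]
  · linarith only [hX, hLJ, q2, x1]
  · linarith only [hX, hLJ, hvLJ, q2, f1, x1, G1, c1]
  · linarith only [hX, hLJ, hvLJ, hρvLJ, q2, f2, x1, G1, c2]
  · linarith only [hX, hLJ, hvLJ, hρvLJ, q2, f2, f3, x1, G1, g7]
  · have h1 : ((q + fw w₀ Δ i + X : ℕ) : ℝ) ≤ J := by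
      have h2 : ((fw w₀ Δ i : ℕ) : ℝ) ≤ fw w₀ Δ N := by exact_mod_cast fwle hi
      push_cast
      linarith only [hX, hLJ, hvLJ, q2, f3, x1, hιJ, G1, g7, g11, g10, h2]
    exact_mod_cast h1

end Pool.FALL
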